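import Pool.Agent.H8NB.Main

set_option autoImplicit false

namespace Pool.Agent.H8NB

universe u v

section
variable {G A C : Type} [Group G] [AddCommGroup A] [AddCommGroup C] (D : RD G A C)
  {M : Type v} [AddCommGroup M]

include D in
/-- no brace-type data over a group with rigidity data -/
theorem no_data (T : G →* AddMonoid.End M) (π : G → M)
    (hπ : ∀ g h, π (g * h) = π g + T g (π h)) (bij : Function.Bijective π) : False := by
  have tf : TF M := tf_of T π hπ bij D.r D.depG D.tfG
    (fun g h => ⟨D.ι (D.ω (D.q g) (D.q h)), D.comm g h, D.ι_central _⟩)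
  have π1 : π 1 = 0 := pi_one T π hπ
  have hB := stepB D tf T π hπ bij
  -- j : C →+ M
  let j : C →+ M :=
    { toFun := fun c => π (D.ι c)
      map_zero' := by show π (D.ι 0) = 0; rw [D.ι_zero, π1]
      map_add' := fun c d => by
        show π (D.ι (c + d)) = _
        rw [D.ι_add, hπ, hB] }
  have hj : ∀ c, j c = π (D.ι c) := fun _ => rfl
  have j_inj : Function.Injective j := fun x y h => D.ι_inj (bij.1 h)
  let P : AddSubgroup M := j.range
  have hP : ∀ m, m ∈ P ↔ ∃ c, j c = m := fun _ => Iff.rfl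
  -- Step C1
  have hC1 : ∀ g, ∃ n : ℕ, ∃ m : ℤ, n ≠ 0 ∧ ∀ c, ∃ d, T g (j c) = j d ∧ n • d = m • c := by
    intro g
    choose φ hφ using fun c => bij.2 (T g (j c))
    have hfix1 : ∀ c d, T (φ c) (j d) = j d := by
      intro c d
      have e := cocycle_comm T π hπ (D.ι_central d (φ c)).symm
      rw [hφ c] at e
      have hc : Commute (T (D.ι d)) (T g) := (D.ι_central d g).map T
      have e2 : T (D.ι d) (T g (j c)) = T g (j c) := by
        rw [← E_mul, hc.eq, E_mul]
        exact congrArg (T g) (hB d c)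
      rw [e2, sub_self] at e
      exact sub_eq_zero.1 e
    have hfix2 : ∀ c d, T (φ c) (T g (j d)) = T g (j d) := by
      intro c d
      rw [← E_mul, ← map_mul, D.comm (φ c) g, map_mul, map_mul, E_mul, E_mul]
      have : T (D.ι (D.ω (D.q (φ c)) (D.q g))) (j d) = j d := hB _ _
      rw [this, hfix1]
    obtain ⟨n, m, hn, hnm⟩ := D.H1 φ (by
      intro c d
      apply bij.1
      rw [hπ, hφ, hφ, hφ, hfix2, map_add, map_add])
    refine ⟨n, m, hn, fun c => ?_⟩
    obtain ⟨d, hd1, hd2⟩ := hnm c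
    exact ⟨d, by rw [← hφ c, hd1, hj], hd2⟩
  have hPT : ∀ g, ∀ m ∈ P, T g m ∈ P := by
    rintro g _ ⟨c, rfl⟩
    obtain ⟨n, m, _, h⟩ := hC1 g
    obtain ⟨d, hd, _⟩ := h c
    exact ⟨d, hd.symm⟩
  -- Step C2: the quotient
  let mk : M → M ⧸ P := fun m => QuotientAddGroup.mk m
  have mk_add : ∀ a b, mk (a + b) = mk a + mk b := fun _ _ => rfl
  have mk_sub : ∀ a b, mk (a - b) = mk a - mk b := fun _ _ => rfl
  have mk_zero_iff : ∀ a, mk a = 0 ↔ a ∈ P := fun a => QuotientAddGroup.eq_zero_iff a
  have mk_eq_iff : ∀ a b, mk a = mk b ↔ a - b ∈ P := by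
    intro a b
    rw [← sub_eq_zero, ← mk_sub, mk_zero_iff]
  let TB : G → AddMonoid.End (M ⧸ P) := fun g => bar P (T g) (hPT g)
  have TB_mk : ∀ g m, TB g (mk m) = mk (T g m) := fun _ _ => rfl
  have mk_surj : ∀ x : M ⧸ P, ∃ m, mk m = x := fun x => QuotientAddGroup.mk_surjective x
  have TB_mul : ∀ g h, TB (g * h) = TB g * TB h := by
    intro g h
    apply AddMonoidHom.ext
    intro x
    obtain ⟨m, rfl⟩ := mk_surj x
    show TB (g * h) (mk m) = TB g (TB h (mk m))
    rw [TB_mk, TB_mk, TB_mk, map_mul, E_mul]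
  have TB_one : TB 1 = 1 := by
    apply AddMonoidHom.ext
    intro x
    obtain ⟨m, rfl⟩ := mk_surj x
    show TB 1 (mk m) = mk m
    rw [TB_mk, map_one, E_one]
  have hCP : ∀ c m, T (D.ι c) m - m ∈ P := by
    intro c m
    obtain ⟨g, rfl⟩ := bij.2 m
    rw [cocycle_comm T π hπ (D.ι_central c g)]
    exact P.sub_mem (hPT g _ ⟨c, rfl⟩) ⟨c, rfl⟩
  have TB_ι : ∀ c, TB (D.ι c) = 1 := by
    intro c
    apply AddMonoidHom.ext
    intro x
    obtain ⟨m, rfl⟩ := mk_surj x
    show TB (D.ι c) (mk m) = mk m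
    rw [TB_mk, mk_eq_iff]
    exact hCP c m
  have hq : ∀ g h, D.q g = D.q h → ∃ c, g = h * D.ι c := by
    intro g h e
    have e1 : D.q (h⁻¹ * g) = 0 := by
      have e2 := D.q_mul h (h⁻¹ * g)
      rw [mul_inv_cancel_left, e] at e2
      have : D.q h + 0 = D.q h + D.q (h⁻¹ * g) := by rw [add_zero]; exact e2
      exact (add_left_cancel this).symm
    obtain ⟨c, hc⟩ := D.q_ker _ e1
    exact ⟨c, by rw [← hc]; group⟩
  choose lift hlift using D.q_surj
  let TA : A → AddMonoid.End (M ⧸ P) := fun a => TB (lift a)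
  have TB_q : ∀ g, TB g = TA (D.q g) := by
    intro g
    obtain ⟨c, hc⟩ := hq g (lift (D.q g)) (hlift _).symm
    show TB g = TB (lift (D.q g))
    conv_lhs => rw [hc]
    rw [TB_mul, TB_ι, mul_one]
  let pA : A → M ⧸ P := fun a => mk (π (lift a))
  have mkπ_q : ∀ g, mk (π g) = pA (D.q g) := by
    intro g
    obtain ⟨c, hc⟩ := hq g (lift (D.q g)) (hlift _).symm
    show mk (π g) = mk (π (lift (D.q g)))
    conv_lhs => rw [hc]
    rw [hπ, mk_add]
    have : mk (T (lift (D.q g)) (π (D.ι c))) = 0 := by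
      rw [mk_zero_iff]; exact hPT _ _ ⟨c, rfl⟩
    rw [this, add_zero]
  have TA_add : ∀ a b, TA (a + b) = TA a * TA b := by
    intro a b
    have e := TB_q (lift a * lift b)
    rw [D.q_mul, hlift, hlift] at e
    rw [← e, TB_mul]
  have TA_zero : TA 0 = 1 := by
    have e := TB_q (D.ι 0)
    rw [D.q_ι, TB_ι] at e
    exact e.symm
  have pA_add : ∀ a b, pA (a + b) = pA a + TA a (pA b) := by
    intro a b
    have e := mkπ_q (lift a * lift b)
    rw [D.q_mul, hlift, hlift] at e
    rw [← e, hπ, mk_add]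
    rfl
  have pA_surj : Function.Surjective pA := by
    intro x
    obtain ⟨m, rfl⟩ := mk_surj x
    obtain ⟨g, rfl⟩ := bij.2 m
    exact ⟨D.q g, (mkπ_q g).symm⟩
  have pA_inj : Function.Injective pA := by
    intro a b h
    have h1 : π (lift a) - π (lift b) ∈ P := (mk_eq_iff _ _).1 h
    have h2 := hPT (lift b)⁻¹ _ h1
    obtain ⟨c, hc⟩ := h2
    have h3 : lift a = lift b * D.ι c := by
      apply bij.1
      rw [hπ]
      have : T (lift b) (π (D.ι c)) = π (lift a) - π (lift b) := by
        have := congrArg (T (lift b)) hc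
        rw [T_inv_apply] at this
        exact this
      rw [this]; abel
    have h4 := congrArg D.q h3
    rw [D.q_mul, D.q_ι, add_zero, hlift, hlift] at h4
    exact h4
  -- nilpotency for A
  let TM : Multiplicative A →* AddMonoid.End (M ⧸ P) :=
    { toFun := fun a => TA (Multiplicative.toAdd a)
      map_one' := TA_zero
      map_mul' := fun a b => TA_add _ _ }
  have nilA : ∀ a, ∃ k : ℕ, (TA a - 1) ^ k = 0 := by
    intro a
    exact nil_all TM (fun a => pA (Multiplicative.toAdd a)) (fun a b => pA_add _ _)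
      ⟨fun x y h => pA_inj h, fun x => pA_surj x⟩ D.r D.depA (Multiplicative.ofAdd a)
      (fun b => Commute.all _ _)
  have hC3 : ∀ g, ∃ k : ℕ, ∀ m, ((T g - 1) ^ k) m ∈ P := by
    intro g
    obtain ⟨k, hk⟩ := nilA (D.q g)
    rw [← TB_q] at hk
    refine ⟨k, fun m => ?_⟩
    have e : ∀ i : ℕ, ∀ m, mk (((T g - 1) ^ i) m) = ((TB g - 1) ^ i) (mk m) := by
      intro i
      induction i with
      | zero => intro m; rfl
      | succ i ih =>
        intro m
        rw [pow_succ, pow_succ, E_mul, E_mul, ih]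
        rfl
    rw [← mk_zero_iff, e, hk]
    rfl
  -- Step C4
  have hC4 : ∀ g c, T g (j c) = j c := by
    intro g c
    by_cases hc0 : c = 0
    · rw [hc0, map_zero, map_zero]
    obtain ⟨k, hk⟩ := hC3 g
    obtain ⟨n, m, hn, hnm⟩ := hC1 g
    have e1 : ∀ c, ((T g - 1) ^ (k + 1)) (j c) = 0 := by
      intro c
      rw [pow_succ, E_mul]
      have e2 : (T g - 1) (j c) = (T (D.ι c) - 1) (π g) := by
        rw [E_sub, E_sub, E_one, E_one]
        exact cocycle_comm T π hπ (D.ι_central c g).symm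
      have hcm : Commute ((T g - 1) ^ k) (T (D.ι c) - 1) := by
        apply Commute.pow_left
        have : Commute (T g) (T (D.ι c)) := (D.ι_central c g).symm.map T
        exact (this.sub_right (Commute.one_right _)).sub_left
          ((Commute.one_left _).sub_right (Commute.one_right _))
      rw [e2, ← E_mul, hcm.eq, E_mul]
      obtain ⟨d, hd⟩ := hk (π g)
      rw [← hd, E_sub, E_one, hj, hB, sub_self]
    have e2 : ∀ c, n • (T g - 1) (j c) = (m - n) • j c := by
      intro c
      obtain ⟨d, hd1, hd2⟩ := hnm c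
      rw [E_sub, E_one, hd1, nsmul_sub, ← map_nsmul, hd2, map_zsmul, sub_zsmul, natCast_zsmul]
      exact sub_eq_add_neg _ _
    have e3 : ∀ i : ℕ, ∀ c, (n ^ i) • ((T g - 1) ^ i) (j c) = ((m - n) ^ i) • j c := by
      intro i
      induction i with
      | zero => intro c; simp
      | succ i ih =>
        intro c
        rw [pow_succ', pow_succ', E_mul, mul_smul, ← map_nsmul, ih, map_zsmul, smul_comm, e2,
          ← mul_smul, pow_succ]
    have e4 : ((m - n) ^ (k + 1)) • j c = 0 := by
      rw [← e3, e1, smul_zero]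
    have hjc : j c ≠ 0 := by
      intro h
      apply hc0
      apply j_inj
      rw [h, map_zero]
    have e5 : (m - (n : ℤ)) ^ (k + 1) = 0 := by
      by_contra hne
      apply hjc
      have h6 : ((m - (n : ℤ)) ^ (k + 1)).natAbs ≠ 0 := by
        rwa [Int.natAbs_ne_zero]
      refine tf _ _ h6 ?_
      rcases Int.natAbs_eq ((m - (n : ℤ)) ^ (k + 1)) with h7 | h7
      · rw [h7, natCast_zsmul] at e4
        exact e4
      · rw [h7, neg_smul, natCast_zsmul, neg_eq_zero] at e4
        exact e4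
    have e6 : m - (n : ℤ) = 0 := pow_eq_zero_iff (Nat.succ_ne_zero k) |>.1 e5
    have e7 := e2 c
    rw [e6, zero_smul] at e7
    have e8 := tf n _ hn e7
    rw [E_sub, E_one] at e8
    exact sub_eq_zero.1 e8
  have hPfix : ∀ g, ∀ m ∈ P, T g m = m := by
    rintro g _ ⟨c, rfl⟩
    exact hC4 g c
  have hC5 : ∀ c m, T (D.ι c) m = m := by
    intro c m
    obtain ⟨g, rfl⟩ := bij.2 m
    have e := cocycle_comm T π hπ (D.ι_central c g)
    have e2 : T g (π (D.ι c)) = π (D.ι c) := hC4 g c
    rw [e2, sub_self] at e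
    exact sub_eq_zero.1 e
  -- Step C6
  have tfB : TF (M ⧸ P) := by
    intro n x hn hx
    obtain ⟨m, rfl⟩ := mk_surj x
    have hx' : n • m ∈ P := by
      rw [← mk_zero_iff]; exact hx
    obtain ⟨g, rfl⟩ := bij.2 m
    have e1 : ∀ h, T h (π g) = π g := by
      intro h
      have e2 := hPfix h _ hx'
      rw [map_nsmul, ← sub_eq_zero, ← nsmul_sub] at e2
      exact sub_eq_zero.1 (tf n _ hn e2)
    have e3 : ∀ i : ℕ, π (g ^ i) = i • π g := by
      intro i
      induction i with
      | zero => rw [pow_zero, π1, zero_nsmul]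
      | succ i ih => rw [pow_succ, hπ, ih, e1, succ_nsmul]
    obtain ⟨c, hc⟩ := hx'
    rw [← e3] at hc
    have e4 : D.ι c = g ^ n := bij.1 hc
    have e5 : ∀ i : ℕ, D.q (g ^ i) = i • D.q g := by
      intro i
      induction i with
      | zero =>
        rw [pow_zero, zero_nsmul, ← D.ι_zero, D.q_ι]
      | succ i ih => rw [pow_succ, D.q_mul, ih, succ_nsmul]
    have e6 := D.tfA n (D.q g) hn (by rw [← e5, ← e4, D.q_ι])
    obtain ⟨c', hc'⟩ := D.q_ker g e6
    rw [mk_zero_iff, hc']
    exact ⟨c', rfl⟩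
  -- Step D
  have hD : ∀ a b, TA a (pA b) = pA b := by
    refine lemmaB tfB TA TA_zero TA_add pA pA_add pA_inj nilA D.FA D.hFA D.rkA ?_
    intro ψ hψ1 hψ2 _
    choose φ hφ using fun a => pA_surj (ψ a)
    have hφadd : ∀ a b, φ (a + b) = φ a + φ b := by
      intro a b
      apply pA_inj
      rw [pA_add, hφ, hφ, hφ, hψ2, hψ1]
    obtain ⟨n, m, hn, hnm⟩ := D.H2 φ hφadd
    refine ⟨n, m, hn, fun a => ?_⟩
    let φ' : A →+ A := AddMonoidHom.mk' φ hφadd
    let ψ' : A →+ M ⧸ P := AddMonoidHom.mk' ψ hψ1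
    have e1 : n • ψ a = ψ (n • a) := (map_nsmul ψ' n a).symm
    have e2 : φ (n • a) = n • φ a := map_nsmul φ' n a
    rw [e1, ← hφ, e2, hnm]
  have hDP : ∀ g m, T g m - m ∈ P := by
    intro g m
    obtain ⟨h, rfl⟩ := bij.2 m
    rw [← mk_eq_iff, ← TB_mk, TB_q, mkπ_q]
    exact hD _ _
  -- Step E
  have hB' : ∀ g h, ∃ c, j c = T g (π h) - π h := fun g h => hDP g (π h)
  choose B hB2 using hB'
  have B1 : ∀ g g' h, B (g * g') h = B g h + B g' h := by
    intro g g' h
    apply j_inj
    rw [map_add, hB2, hB2, hB2, map_mul, E_mul]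
    have e := hPfix g _ (hDP g' (π h))
    rw [map_sub] at e
    have : T g (T g' (π h)) = T g (π h) + (T g' (π h) - π h) := by rw [← e]; abel
    rw [this]; abel
  have B2 : ∀ g h h', B g (h * h') = B g h + B g h' := by
    intro g h h'
    apply j_inj
    rw [map_add, hB2, hB2, hB2, hπ]
    have e := hPfix g _ (hDP h (π h'))
    rw [map_sub] at e
    have : T g (T h (π h')) = T g (π h') + (T h (π h') - π h') := by rw [← e]; abel
    rw [map_add, this]; abel
  have B3 : ∀ c h, B (D.ι c) h = 0 := by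
    intro c h
    apply j_inj
    rw [hB2, hC5, sub_self, map_zero]
  have B4 : ∀ g c, B g (D.ι c) = 0 := by
    intro g c
    apply j_inj
    have : T g (π (D.ι c)) = π (D.ι c) := hC4 g c
    rw [hB2, this, sub_self, map_zero]
  have B5 : ∀ g h, B g h = B (lift (D.q g)) (lift (D.q h)) := by
    intro g h
    obtain ⟨c, hc⟩ := hq g (lift (D.q g)) (hlift _).symm
    obtain ⟨d, hd⟩ := hq h (lift (D.q h)) (hlift _).symm
    conv_lhs => rw [hc, hd]
    rw [B1, B2, B2, B3, B3, B4]
    simp
  refine D.E (fun u v => B (lift u) (lift v)) ?_ ?_ ?_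
  · intro u u' v
    have e := B5 (lift u * lift u') (lift v)
    rw [D.q_mul, hlift, hlift, hlift, B1] at e
    exact e.symm
  · intro u v v'
    have e := B5 (lift u) (lift v * lift v')
    rw [D.q_mul, hlift, hlift, hlift, B2] at e
    exact e.symm
  · intro u w
    show B (lift u) (lift w) - B (lift w) (lift u) = D.ω u w
    apply j_inj
    rw [map_sub, hB2, hB2]
    have e := congrArg π (D.comm (lift u) (lift w))
    rw [hlift, hlift, hπ, hπ, hπ] at e
    have e2 : T (lift w * lift u) (π (D.ι (D.ω u w))) = j (D.ω u w) := hC4 _ _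
    rw [e2] at e
    have e3 : j (D.ω u w) = (π (lift u) + T (lift u) (π (lift w)))
        - (π (lift w) + T (lift w) (π (lift u))) := by rw [e]; abel
    rw [e3]; abel

/-- no left brace has multiplicative group `G` -/
theorem no_brace (D : RD G A C) (B : Type v) [AddCommGroup B] [Group B]
    (hbr : ∀ a b c : B, a * (b + c) = a * b - a + a * c) : IsEmpty (G ≃* B) := by
  constructor
  intro e
  have h10 : (1 : B) = 0 := by
    have := hbr 1 0 0
    simp only [one_mul, add_zero] at this
    -- 0 = 0 - 1 + 0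
    have h2 : (0 : B) - 1 = 0 := by rw [← this]
    rw [zero_sub, neg_eq_zero] at h2
    exact h2
  let lam : B → AddMonoid.End B := fun a =>
    AddMonoidHom.mk' (fun b => a * b - a) (fun b c => by
      rw [hbr]; abel)
  have lam_app : ∀ a b, lam a b = a * b - a := fun _ _ => rfl
  have lam_mul : ∀ a b, lam (a * b) = lam a * lam b := by
    intro a b
    apply AddMonoidHom.ext
    intro c
    show lam (a * b) c = lam a (lam b c)
    rw [lam_app b c, map_sub, lam_app, lam_app, lam_app, mul_assoc]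
    abel
  have lam_one : lam 1 = 1 := by
    apply AddMonoidHom.ext
    intro c
    show lam 1 c = c
    rw [lam_app, one_mul, h10, sub_zero]
  let T : G →* AddMonoid.End B :=
    { toFun := fun g => lam (e g)
      map_one' := by rw [map_one, lam_one]
      map_mul' := fun g h => by rw [map_mul, lam_mul] }
  refine no_data D T (fun g => e g) (fun g h => ?_) e.bijective
  show e (g * h) = e g + lam (e g) (e h)
  rw [map_mul, lam_app]; abel

end

end Pool.Agent.H8NB
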