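import Pool.Agent.H8NB.Grp
import Pool.Agent.H8NB.Final

set_option autoImplicit false

namespace Pool.Agent.H8NB

theorem cr_add_left (u u' v : V) : cr (u + u') v = cr u v + cr u' v := by
  apply V_ext <;> simp only [cr, Prod.fst_add, Prod.snd_add] <;> ring
theorem cr_add_right (u v v' : V) : cr u (v + v') = cr u v + cr u v' := by
  apply V_ext <;> simp only [cr, Prod.fst_add, Prod.snd_add] <;> ring
theorem cr_self (u : V) : cr u u = 0 := by
  apply V_ext <;> simp only [cr, Prod.fst_zero, Prod.snd_zero] <;> ring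
theorem cr_zero_right (u : V) : cr u 0 = 0 := by
  apply V_ext <;> simp [cr]
theorem cr_zero_left (u : V) : cr 0 u = 0 := by
  apply V_ext <;> simp [cr]
theorem cr_anti (u v : V) : cr u v = - cr v u := by
  apply V_ext <;> simp only [cr, Prod.fst_neg, Prod.snd_neg] <;> ring
theorem cr_neg_left (u v : V) : cr (-u) v = - cr u v := by
  apply V_ext <;> simp only [cr, Prod.fst_neg, Prod.snd_neg] <;> ring

/-- The group: pairs `(u, x)` of rational vectors with 2-adic integrality conditions. -/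
@[ext] structure GG where
  u : V
  x : V
  h1 : ‖α1 u‖ ≤ 1
  h2 : ‖α2 u‖ ≤ 1
  h3 : ‖γ x + (1 / 2) * α1 u * α2 u‖ ≤ 1

noncomputable instance : Mul GG where
  mul g h :=
    { u := g.u + h.u
      x := g.x + h.x + (1 / 2 : ℚ) • cr g.u h.u
      h1 := by rw [α1_add]; exact nadd g.h1 h.h1
      h2 := by rw [α2_add]; exact nadd g.h2 h.h2
      h3 := by
        have e : γ (g.x + h.x + (1 / 2 : ℚ) • cr g.u h.u)
            + (1 / 2) * α1 (g.u + h.u) * α2 (g.u + h.u)
            = (γ g.x + (1 / 2) * α1 g.u * α2 g.u) + (γ h.x + (1 / 2) * α1 h.u * α2 h.u)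
              + α1 g.u * α2 h.u := by
          rw [γ_add, γ_add, γ_smul, γ_cr, α1_add, α2_add]
          push_cast
          ring
        rw [e]
        exact nadd (nadd g.h3 h.h3) (nmul g.h1 h.h2) }

noncomputable instance : One GG where
  one :=
    { u := 0
      x := 0
      h1 := by rw [α1_zero]; simp
      h2 := by rw [α2_zero]; simp
      h3 := by rw [γ_zero, α1_zero, α2_zero]; simp }

noncomputable instance : Inv GG where
  inv g :=
    { u := -g.u
      x := -g.x
      h1 := by rw [α1_neg]; exact nneg g.h1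
      h2 := by rw [α2_neg]; exact nneg g.h2
      h3 := by
        have e : γ (-g.x) + (1 / 2) * α1 (-g.u) * α2 (-g.u)
            = -(γ g.x + (1 / 2) * α1 g.u * α2 g.u) + α1 g.u * α2 g.u := by
          rw [γ_neg, α1_neg, α2_neg]; ring
        rw [e]
        exact nadd (nneg g.h3) (nmul g.h1 g.h2) }

theorem mul_u (g h : GG) : (g * h).u = g.u + h.u := rfl
theorem mul_x (g h : GG) : (g * h).x = g.x + h.x + (1 / 2 : ℚ) • cr g.u h.u := rfl
theorem one_u : (1 : GG).u = 0 := rfl
theorem one_x : (1 : GG).x = 0 := rfl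
theorem inv_u (g : GG) : (g⁻¹).u = -g.u := rfl
theorem inv_x (g : GG) : (g⁻¹).x = -g.x := rfl

noncomputable instance : Group GG :=
  Group.ofLeftAxioms
    (by
      intro a b c
      apply GG.ext
      · simp only [mul_u]; abel
      · simp only [mul_u, mul_x, cr_add_left, cr_add_right, smul_add]; abel)
    (by
      intro a
      apply GG.ext
      · simp only [mul_u, one_u, zero_add]
      · simp only [mul_x, one_u, one_x, cr_zero_left, zero_add, smul_zero, add_zero])
    (by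
      intro a
      apply GG.ext
      · simp only [mul_u, inv_u, one_u]; abel
      · simp only [mul_x, inv_u, inv_x, one_x, cr_neg_left, cr_self, neg_zero, smul_zero]; abel)

theorem pow_u (g : GG) (n : ℕ) : (g ^ n).u = n • g.u := by
  induction n with
  | zero => simp [one_u]
  | succ n ih => rw [pow_succ, mul_u, ih, succ_nsmul]

theorem cr_nsmul_left (n : ℕ) (u v : V) : cr (n • u) v = n • cr u v := by
  induction n with
  | zero => simp [cr_zero_left]
  | succ n ih => rw [succ_nsmul, cr_add_left, ih, succ_nsmul]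

theorem cr_nsmul_right (n : ℕ) (u v : V) : cr u (n • v) = n • cr u v := by
  induction n with
  | zero => simp [cr_zero_right]
  | succ n ih => rw [succ_nsmul, cr_add_right, ih, succ_nsmul]

theorem pow_x (g : GG) (n : ℕ) : (g ^ n).x = n • g.x := by
  induction n with
  | zero => simp [one_x]
  | succ n ih =>
    rw [pow_succ, mul_x, ih, pow_u, cr_nsmul_left, cr_self, smul_zero, smul_zero, add_zero,
      succ_nsmul]

theorem commute_cr {g h : GG} (hc : Commute g h) : cr g.u h.u = 0 := by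
  have h1 := congrArg GG.x hc.eq
  rw [mul_x, mul_x, cr_anti h.u g.u] at h1
  have h2 : (1 / 2 : ℚ) • cr g.u h.u = (1 / 2 : ℚ) • (- cr g.u h.u) := by
    have : g.x + h.x + (1 / 2 : ℚ) • cr g.u h.u = g.x + h.x + (1 / 2 : ℚ) • (-cr g.u h.u) := by
      rw [h1]; abel
    exact add_left_cancel this
  have h3 : cr g.u h.u = (1 / 2 : ℚ) • cr g.u h.u - (1 / 2 : ℚ) • (- cr g.u h.u) := by
    rw [smul_neg, sub_neg_eq_add, ← add_smul]; norm_num
  rw [h3, ← h2, sub_self]

theorem prod_u {r : ℕ} (g : Fin r → GG) : (List.ofFn g).prod.u = ∑ i, (g i).u := by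
  induction r with
  | zero => simp [one_u]
  | succ r ih => rw [List.ofFn_succ, List.prod_cons, mul_u, ih, Fin.sum_univ_succ]

theorem cr_sum {r : ℕ} (u : V) (v : Fin r → V) (h : ∀ i, cr u (v i) = 0) :
    cr u (∑ i, v i) = 0 := by
  induction r with
  | zero => simp [cr_zero_right]
  | succ r ih => rw [Fin.sum_univ_succ, cr_add_right, h 0, zero_add, ih _ (fun i => h i.succ)]

theorem prod_x {r : ℕ} (g : Fin r → GG) (h : ∀ i j, cr (g i).u (g j).u = 0) :
    (List.ofFn g).prod.x = ∑ i, (g i).x := by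
  induction r with
  | zero => simp [one_x]
  | succ r ih =>
    rw [List.ofFn_succ, List.prod_cons, mul_x, prod_u, cr_sum _ _ (fun i => h 0 i.succ),
      smul_zero, add_zero, ih (fun i => g i.succ) (fun i j => h _ _), Fin.sum_univ_succ]

/-- integer dependence of many rational vectors -/
theorem depQ {W : Type} [AddCommGroup W] [Module ℚ W] [FiniteDimensional ℚ W] (r : ℕ)
    (hr : Module.finrank ℚ W < r) (v : Fin r → W) :
    ∃ a b : Fin r → ℕ, (∀ i, a i = 0 ∨ b i = 0) ∧ (∃ k, a k ≠ 0 ∨ b k ≠ 0) ∧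
      ∑ i, a i • v i = ∑ i, b i • v i := by
  classical
  have hnot : ¬ LinearIndependent ℚ v := by
    intro h
    have := h.fintype_card_le_finrank
    rw [Fintype.card_fin] at this
    omega
  rw [Fintype.not_linearIndependent_iff] at hnot
  obtain ⟨c, hc, k, hk⟩ := hnot
  -- clear denominators
  let N : ℕ := ∏ i, (c i).den
  have hN : N ≠ 0 := Finset.prod_ne_zero_iff.2 (fun i _ => (c i).den_nz)
  have hint : ∀ i, ∃ m : ℤ, (m : ℚ) = N * c i := by
    intro i
    obtain ⟨d, hd⟩ : (c i).den ∣ N := Finset.dvd_prod_of_mem _ (Finset.mem_univ i)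
    refine ⟨d * (c i).num, ?_⟩
    rw [hd]
    push_cast
    have := Rat.den_mul_eq_num (c i)
    rw [← this]; ring
  choose m hm using hint
  have hm0 : ∑ i, m i • v i = 0 := by
    have : ∀ i, m i • v i = (N : ℚ) • (c i • v i) := by
      intro i
      rw [smul_smul, ← hm, Int.cast_smul_eq_zsmul]
    simp only [this]
    rw [← Finset.smul_sum, hc, smul_zero]
  have hmk : m k ≠ 0 := by
    intro h
    have := hm k
    rw [h, Int.cast_zero, zero_eq_mul] at this
    rcases this with h1 | h1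
    · exact hN (by exact_mod_cast h1)
    · exact hk h1
  refine ⟨fun i => (m i).toNat, fun i => (- m i).toNat, ?_, ⟨k, ?_⟩, ?_⟩
  · intro i
    simp only [Int.toNat_eq_zero]
    omega
  · simp only [ne_eq, Int.toNat_eq_zero]
    omega
  · rw [← sub_eq_zero, ← Finset.sum_sub_distrib, ← hm0]
    refine Finset.sum_congr rfl (fun i _ => ?_)
    have h1 : m i = ((m i).toNat : ℤ) - ((- m i).toNat : ℤ) := by omega
    conv_rhs => rw [h1]
    rw [sub_smul, natCast_zsmul, natCast_zsmul]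

theorem finrank_V : Module.finrank ℚ V = 3 := by
  simp [V]

theorem depG : Dep GG 7 := by
  intro g hg
  obtain ⟨a, b, h1, h2, h3⟩ := depQ (W := V × V) 7 (by simp [V]) (fun i => ((g i).u, (g i).x))
  refine ⟨a, b, h1, h2, ?_⟩
  have hcr : ∀ c : Fin 7 → ℕ, ∀ i j, cr ((g i) ^ c i).u ((g j) ^ c j).u = 0 := by
    intro c i j
    rw [pow_u, pow_u, cr_nsmul_left, cr_nsmul_right, commute_cr (hg i j), smul_zero, smul_zero]
  apply GG.ext
  · rw [prod_u, prod_u]
    have := congrArg Prod.fst h3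
    simpa [Prod.fst_sum, pow_u] using this
  · rw [prod_x _ (hcr a), prod_x _ (hcr b)]
    have := congrArg Prod.snd h3
    simpa [Prod.snd_sum, pow_x] using this

theorem depA : Dep (Multiplicative A) 7 := by
  intro g _
  obtain ⟨a, b, h1, h2, h3⟩ := depQ (W := V) 7 (by simp [V])
    (fun i => ((Multiplicative.toAdd (g i) : A) : V))
  refine ⟨a, b, h1, h2, ?_⟩
  rw [List.prod_ofFn, List.prod_ofFn]
  apply Multiplicative.toAdd.injective
  apply Subtype.ext
  rw [toAdd_prod, toAdd_prod]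
  simp only [toAdd_pow]
  push_cast
  exact h3

theorem V_tf (n : ℕ) (v : V) (hn : n ≠ 0) (h : n • v = 0) : v = 0 := by
  rw [← Nat.cast_smul_eq_nsmul ℚ, smul_eq_zero] at h
  rcases h with h | h
  · exact absurd (by exact_mod_cast h) hn
  · exact h

/-- rational scalars become integer ones -/
theorem rat_to_int {S : AddSubgroup V} (q : ℚ) (a b : S) (h : (a : V) = q • (b : V)) :
    q.den • a = q.num • b := by
  apply Subtype.ext
  push_cast
  rw [h, ← Nat.cast_smul_eq_nsmul ℚ, smul_smul, ← Int.cast_smul_eq_zsmul ℚ, Rat.den_mul_eq_num]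

theorem ns1 (n : ℕ) (v : V) : (n • v).1 = n * v.1 := by
  rw [Prod.smul_fst, nsmul_eq_mul]
theorem ns2 (n : ℕ) (v : V) : (n • v).2.1 = n * v.2.1 := by
  rw [Prod.smul_snd, Prod.smul_fst, nsmul_eq_mul]
theorem ns3 (n : ℕ) (v : V) : (n • v).2.2 = n * v.2.2 := by
  rw [Prod.smul_snd, Prod.smul_snd, nsmul_eq_mul]
theorem zs1 (n : ℤ) (v : V) : (n • v).1 = n * v.1 := by
  rw [Prod.smul_fst, zsmul_eq_mul]
theorem zs2 (n : ℤ) (v : V) : (n • v).2.1 = n * v.2.1 := by
  rw [Prod.smul_snd, Prod.smul_fst, zsmul_eq_mul]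
theorem zs3 (n : ℤ) (v : V) : (n • v).2.2 = n * v.2.2 := by
  rw [Prod.smul_snd, Prod.smul_snd, zsmul_eq_mul]

theorem closure3 (S : AddSubgroup V) (h0 : e0 ∈ S) (h1 : e1 ∈ S) (h2 : e2 ∈ S) (x : S) :
    ∃ n : ℕ, n ≠ 0 ∧ n • x ∈
      AddSubgroup.closure (({⟨e0, h0⟩, ⟨e1, h1⟩, ⟨e2, h2⟩} : Set S)) := by
  refine ⟨(x : V).1.den * (x : V).2.1.den * (x : V).2.2.den,
    Nat.mul_ne_zero (Nat.mul_ne_zero (Rat.den_nz _) (Rat.den_nz _)) (Rat.den_nz _), ?_⟩
  have e : ((x : V).1.den * (x : V).2.1.den * (x : V).2.2.den) • x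
      = ((x : V).2.1.den * (x : V).2.2.den * (x : V).1.num : ℤ) • (⟨e0, h0⟩ : S)
      + ((x : V).1.den * (x : V).2.2.den * (x : V).2.1.num : ℤ) • (⟨e1, h1⟩ : S)
      + ((x : V).1.den * (x : V).2.1.den * (x : V).2.2.num : ℤ) • (⟨e2, h2⟩ : S) := by
    apply Subtype.ext
    push_cast
    have d0 := Rat.den_mul_eq_num (x : V).1
    have d1 := Rat.den_mul_eq_num (x : V).2.1
    have d2 := Rat.den_mul_eq_num (x : V).2.2
    apply V_ext
    · simp only [e0, e1, e2, Prod.fst_add, ns1, zs1]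
      push_cast
      rw [← d0]; ring
    · simp only [e0, e1, e2, Prod.fst_add, Prod.snd_add, ns2, zs2]
      push_cast
      rw [← d1]; ring
    · simp only [e0, e1, e2, Prod.snd_add, ns3, zs3]
      push_cast
      rw [← d2]; ring
  rw [e]
  refine AddSubgroup.add_mem _ (AddSubgroup.add_mem _ ?_ ?_) ?_
  · exact AddSubgroup.zsmul_mem _ (AddSubgroup.subset_closure (by simp)) _
  · exact AddSubgroup.zsmul_mem _ (AddSubgroup.subset_closure (by simp)) _
  · exact AddSubgroup.zsmul_mem _ (AddSubgroup.subset_closure (by simp)) _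

theorem rank2 (S : AddSubgroup V) (h0 : e0 ∈ S) (h1 : e1 ∈ S) (y : S) :
    ∃ x : S, ∀ a b : ℤ, a • x = b • y → a = 0 := by
  by_cases hy : (y : V).2.1 = 0
  · refine ⟨⟨e1, h1⟩, fun a b hab => ?_⟩
    have h := congrArg (fun t : S => (t : V).2.1) hab
    simp only [AddSubgroup.coe_zsmul, zs2, hy, e1] at h
    simpa using h
  · refine ⟨⟨e0, h0⟩, fun a b hab => ?_⟩
    have h := congrArg (fun t : S => (t : V).2.1) hab
    simp only [AddSubgroup.coe_zsmul, zs2, e0] at h
    have hb : b = 0 := by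
      have : (b : ℚ) * (y : V).2.1 = 0 := by rw [← h]; simp
      rcases mul_eq_zero.1 this with h2 | h2
      · exact_mod_cast h2
      · exact absurd h2 hy
    rw [hb, zero_smul] at hab
    have h := congrArg (fun t : S => (t : V).1) hab
    simp only [AddSubgroup.coe_zsmul, zs1, e0] at h
    simpa using h

/-- the central embedding -/
noncomputable def iota (c : C) : GG where
  u := 0
  x := c
  h1 := by rw [α1_zero]; simp
  h2 := by rw [α2_zero]; simp
  h3 := by rw [α1_zero, α2_zero, mul_zero, add_zero]; exact c.2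

/-- commutator pairing -/
noncomputable def om (u v : A) : C := ⟨cr u v, by
  rw [mem_C, γ_cr]
  exact nsub (nmul u.2.1 v.2.2) (nmul u.2.2 v.2.1)⟩

theorem q_surj (a : A) : ∃ x : V, ‖γ x + (1 / 2) * α1 a * α2 a‖ ≤ 1 := by
  obtain ⟨m, w, hw, hz⟩ := approx (α1 a * α2 a) (nmul a.2.1 a.2.2) 1
  refine ⟨(-(m : ℚ) / 2) • e2, ?_⟩
  have : γ ((-(m : ℚ) / 2) • e2) + (1 / 2) * α1 a * α2 a = w := by
    rw [γ_smul, γ_e2, mul_assoc, hz]
    push_cast
    ring
  rw [this]; exact hw

/-- no biadditive `β : A × A → C` with antisymmetrization the cross product -/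
theorem noE (β : A → A → C) (hl : ∀ u u' v, β (u + u') v = β u v + β u' v)
    (hr : ∀ u v v', β u (v + v') = β u v + β u v') (ha : ∀ u v, β u v - β v u = om u v) :
    False := by
  have R1 : ∀ u v : A, γ (β u v) = α1 v * γ (β u ⟨e0, e0A⟩) + α2 v * γ (β u ⟨e1, e1A⟩) := by
    intro u v
    exact rigA (fun v => γ (β u v)) (fun a b => by rw [hr]; exact γ_add _ _)
      (fun a => (β u a).2) v
  have R2 : ∀ u v : A, γ (β u v) = α1 u * γ (β ⟨e0, e0A⟩ v) + α2 u * γ (β ⟨e1, e1A⟩ v) := by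
    intro u v
    exact rigA (fun u => γ (β u v)) (fun a b => by rw [hl]; exact γ_add _ _)
      (fun a => (β a v).2) u
  set E0 : A := ⟨e0, e0A⟩ with hE0
  set E1 : A := ⟨e1, e1A⟩ with hE1
  set E2 : A := ⟨e2, e2A⟩ with hE2
  set p : V := (β E0 E0 : V) with hp
  set q : V := (β E0 E1 : V) with hq
  set r : V := (β E1 E0 : V) with hr'
  set s : V := (β E1 E1 : V) with hs
  have f1 := R1 E0 E2
  have f2 := R1 E1 E2
  have f3 := R2 E2 E0
  have f4 := R2 E2 E1
  have a12 : α1 (E2 : V) = ξ := α1_e2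
  have a22 : α2 (E2 : V) = ξ ^ 3 := α2_e2
  rw [a12, a22] at f1 f2 f3 f4
  rw [← hp, ← hq] at f1
  rw [← hr', ← hs] at f2
  rw [← hp, ← hr'] at f3
  rw [← hq, ← hs] at f4
  set w1 : V := (β E0 E2 : V)
  set w2 : V := (β E1 E2 : V)
  set w3 : V := (β E2 E0 : V)
  set w4 : V := (β E2 E1 : V)
  have i1 := indep w1.2.2 (-w1.1 - p.2.2) p.1 (-w1.2.1 - q.2.2) (p.2.1 + q.1) q.2.1 (by
    simp only [γ] at f1; push_cast; linear_combination f1)
  have i2 := indep w2.2.2 (-w2.1 - r.2.2) r.1 (-w2.2.1 - s.2.2) (r.2.1 + s.1) s.2.1 (by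
    simp only [γ] at f2; push_cast; linear_combination f2)
  have i3 := indep w3.2.2 (-w3.1 - p.2.2) p.1 (-w3.2.1 - r.2.2) (p.2.1 + r.1) r.2.1 (by
    simp only [γ] at f3; push_cast; linear_combination f3)
  have i4 := indep w4.2.2 (-w4.1 - q.2.2) q.1 (-w4.2.1 - s.2.2) (q.2.1 + s.1) s.2.1 (by
    simp only [γ] at f4; push_cast; linear_combination f4)
  have p0 : p.1 = 0 := i1.2.2.1
  have r0 : r.1 = 0 := i2.2.2.1
  have r1 : r.2.1 = 0 := i3.2.2.2.2.2
  have q0 : q.1 = 0 := i4.2.2.1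
  have q1 : q.2.1 = 0 := i1.2.2.2.2.2
  have s1 : s.2.1 = 0 := i2.2.2.2.2.2
  have p1 : p.2.1 = 0 := by have := i1.2.2.2.2.1; linarith
  have s0 : s.1 = 0 := by have := i2.2.2.2.2.1; linarith
  have f5 := R1 E2 E2
  rw [a12, a22] at f5
  have gw3 : γ w3 = ξ * p.2.2 + ξ ^ 3 * r.2.2 := by
    rw [f3]; simp only [γ, p0, p1, r0, r1]; push_cast; ring
  have gw4 : γ w4 = ξ * q.2.2 + ξ ^ 3 * s.2.2 := by
    rw [f4]; simp only [γ, q0, q1, s0, s1]; push_cast; ring
  have f6 : γ (β E2 E2 : V) = ξ * (ξ * p.2.2 + ξ ^ 3 * r.2.2)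
      + ξ ^ 3 * (ξ * q.2.2 + ξ ^ 3 * s.2.2) := by
    rw [f5, ← gw3, ← gw4]
  set w5 : V := (β E2 E2 : V)
  have i5 := indep w5.2.2 (-w5.1) (-p.2.2) (-w5.2.1) (-(r.2.2 + q.2.2)) (-s.2.2) (by
    simp only [γ] at f6; push_cast; linear_combination f6)
  have hqr : r.2.2 + q.2.2 = 0 := by have := i5.2.2.2.2.1; linarith
  have h1 := congrArg (fun t : C => (t : V).2.2) (ha E0 E1)
  have h2 : q.2.2 - r.2.2 = 1 := by
    have : ((om E0 E1 : C) : V).2.2 = 1 := by
      show (cr e0 e1).2.2 = 1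
      simp [cr, e0, e1]
    rw [← this, ← h1]
    simp [hq, hr']
  have h3 : q.2.2 = 1 / 2 := by linarith
  have h4 : ‖γ q‖ ≤ 1 := (β E0 E1).2
  have h5 : γ q = ((1 / 2 : ℚ) : ℚ_[2]) := by
    simp only [γ, q0, q1, h3]; push_cast; ring
  rw [h5] at h4
  exact nhalf h4

theorem H1' (φ : C → GG) (hφ : ∀ c d, φ (c + d) = φ c * φ d) :
    ∃ n : ℕ, ∃ m : ℤ, n ≠ 0 ∧ ∀ c, ∃ d, φ c = iota d ∧ n • d = m • c := by
  have hu : ∀ c, (φ c).u = 0 := by
    intro c
    have := homCA (fun c => (⟨(φ c).u, (φ c).h1, (φ c).h2⟩ : A)) (fun a b => by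
      apply Subtype.ext
      show (φ (a + b)).u = (φ a).u + (φ b).u
      rw [hφ, mul_u]) c
    exact congrArg (fun t : A => (t : V)) this
  have hx : ∀ c, ‖γ (φ c).x‖ ≤ 1 := by
    intro c
    have := (φ c).h3
    rw [hu c, α1_zero, α2_zero, mul_zero, add_zero] at this
    exact this
  obtain ⟨q, hq⟩ := endC (fun c => (⟨(φ c).x, hx c⟩ : C)) (fun a b => by
    apply Subtype.ext
    show (φ (a + b)).x = (φ a).x + (φ b).x
    rw [hφ, mul_x, hu a, cr_zero_left, smul_zero, add_zero])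
  refine ⟨q.den, q.num, q.den_nz, fun c => ⟨⟨(φ c).x, hx c⟩, ?_, ?_⟩⟩
  · apply GG.ext
    · exact hu c
    · rfl
  · exact rat_to_int q _ _ (hq c)

/-- the rigidity data -/
noncomputable def theRD : RD GG A C where
  ι := iota
  ι_add := by
    intro c d
    apply GG.ext
    · show (0 : V) = 0 + 0
      rw [add_zero]
    · show ((c + d : C) : V) = (c : V) + d + (1 / 2 : ℚ) • cr 0 0
      rw [cr_zero_left, smul_zero, add_zero]; rfl
  ι_inj := by
    intro c d h
    exact Subtype.ext (congrArg GG.x h)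
  ι_central := by
    intro c g
    apply GG.ext
    · show 0 + g.u = g.u + 0
      abel
    · show (c : V) + g.x + (1 / 2 : ℚ) • cr 0 g.u = g.x + c + (1 / 2 : ℚ) • cr g.u 0
      rw [cr_zero_left, cr_zero_right]; abel
  q := fun g => ⟨g.u, g.h1, g.h2⟩
  q_mul := fun g h => rfl
  q_surj := by
    intro a
    obtain ⟨x, hx⟩ := q_surj a
    exact ⟨⟨a, x, a.2.1, a.2.2, hx⟩, rfl⟩
  q_ker := by
    intro g hg
    have hu : g.u = 0 := congrArg (fun t : A => (t : V)) hg
    refine ⟨⟨g.x, ?_⟩, ?_⟩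
    · have := g.h3
      rw [hu, α1_zero, α2_zero, mul_zero, add_zero] at this
      exact this
    · apply GG.ext
      · exact hu
      · rfl
  q_ι := fun c => rfl
  ω := om
  comm := by
    intro g h
    apply GG.ext
    · show g.u + h.u = h.u + g.u + 0
      abel
    · show g.x + h.x + (1 / 2 : ℚ) • cr g.u h.u = (h.x + g.x + (1 / 2 : ℚ) • cr h.u g.u)
        + cr g.u h.u + (1 / 2 : ℚ) • cr (h.u + g.u) 0
      rw [cr_zero_right, smul_zero, add_zero, cr_anti h.u g.u]
      have : cr g.u h.u = (1 / 2 : ℚ) • cr g.u h.u + (1 / 2 : ℚ) • cr g.u h.u := by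
        rw [← add_smul]; norm_num
      conv_rhs => rw [smul_neg]
      rw [add_assoc (h.x + g.x)]
      conv_rhs => enter [2, 2]; rw [this]
      abel
  tfG := by
    intro n g hn h
    apply GG.ext
    · have := congrArg GG.u h
      rw [pow_u] at this
      exact V_tf n _ hn this
    · have := congrArg GG.x h
      rw [pow_x] at this
      exact V_tf n _ hn this
  tfA := by
    intro n a hn h
    apply Subtype.ext
    apply V_tf n _ hn
    have := congrArg (fun t : A => (t : V)) h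
    simpa using this
  r := 7
  depG := depG
  depA := depA
  H1 := H1'
  H2 := by
    intro φ hφ
    obtain ⟨q, hq⟩ := endA φ hφ
    exact ⟨q.den, q.num, q.den_nz, fun a => rat_to_int q _ _ (hq a)⟩
  FC := by classical exact {⟨e0, e0C⟩, ⟨e1, e1C⟩, ⟨e2, e2C⟩}
  hFC := by
    intro x
    have := closure3 C e0C e1C e2C x
    simpa using this
  FA := by classical exact {⟨e0, e0A⟩, ⟨e1, e1A⟩, ⟨e2, e2A⟩}
  hFA := by
    intro x
    have := closure3 A e0A e1A e2A x
    simpa using this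
  rkC := rank2 C e0C e1C
  rkA := rank2 A e0A e1A
  E := noE

end Pool.Agent.H8NB
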