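import Pool.Agent.H8NB.LemmaB

set_option autoImplicit false

namespace Pool.Agent.H8NB

universe u v

section
variable {G : Type u} [Group G] {M : Type v} [AddCommGroup M]

theorem T_inj (T : G →* AddMonoid.End M) (g : G) {m : M} (h : T g m = 0) : m = 0 := by
  have : T g⁻¹ (T g m) = m := by
    rw [← E_mul, ← map_mul, inv_mul_cancel, map_one]; rfl
  rw [← this, h, map_zero]

theorem T_inv_apply (T : G →* AddMonoid.End M) (g : G) (m : M) : T g (T g⁻¹ m) = m := by
  rw [← E_mul, ← map_mul, mul_inv_cancel, map_one]; rfl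

theorem pi_one (T : G →* AddMonoid.End M) (π : G → M)
    (hπ : ∀ g h, π (g * h) = π g + T g (π h)) : π 1 = 0 := by
  have := hπ 1 1
  rw [mul_one, map_one, E_one] at this
  have h4 : π 1 + 0 = π 1 + π 1 := by rw [add_zero]; exact this
  exact (add_left_cancel h4).symm

theorem cocycle_comm (T : G →* AddMonoid.End M) (π : G → M)
    (hπ : ∀ g h, π (g * h) = π g + T g (π h)) {g h : G} (hc : Commute g h) :
    T g (π h) - π h = T h (π g) - π g := by
  have e1 := hπ g h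
  have e2 := hπ h g
  rw [← hc.eq] at e2
  rw [e2] at e1
  rw [sub_eq_sub_iff_add_eq_add, add_comm (T g (π h)), ← e1, add_comm]

/-- central elements act unipotently -/
theorem nil_all (T : G →* AddMonoid.End M) (π : G → M)
    (hπ : ∀ g h, π (g * h) = π g + T g (π h)) (bij : Function.Bijective π) (r : ℕ)
    (dep : Dep G r) (z : G) (hz : ∀ g, Commute z g) :
    ∃ k : ℕ, (T z - 1) ^ k = 0 := by
  obtain ⟨k, hk⟩ := nil_aux T π hπ bij.1 r dep z ⊤ (AddSubgroup.mem_top _)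
    (fun _ _ => AddSubgroup.mem_top _)
    (fun m _ => by obtain ⟨h, hh⟩ := bij.2 m; exact ⟨h, hh, hz h⟩)
  refine ⟨k + 1, ?_⟩
  apply AddMonoidHom.ext
  intro m
  obtain ⟨g, rfl⟩ := bij.2 m
  have e1 : (T z - 1) (π g) = (T g - 1) (π z) := by
    rw [E_sub, E_sub, E_one, E_one]
    exact cocycle_comm T π hπ (hz g)
  have hc : Commute ((T z - 1) ^ k) (T g - 1) := by
    apply Commute.pow_left
    have : Commute (T z) (T g) := (hz g).map T
    exact (this.sub_right (Commute.one_right _)).sub_left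
      ((Commute.one_left _).sub_right (Commute.one_right _))
  show ((T z - 1) ^ (k + 1)) (π g) = 0
  rw [pow_succ, E_mul, e1, ← E_mul, hc.eq, E_mul, hk, map_zero]

/-- torsion-freeness of the additive group -/
theorem tf_of (T : G →* AddMonoid.End M) (π : G → M)
    (hπ : ∀ g h, π (g * h) = π g + T g (π h)) (bij : Function.Bijective π) (r : ℕ)
    (dep : Dep G r) (tfG : ∀ (n : ℕ) (g : G), n ≠ 0 → g ^ n = 1 → g = 1)
    (cls : ∀ g h : G, ∃ z : G, g * h = h * g * z ∧ ∀ x, Commute z x) : TF M := by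
  by_contra hcon
  have hcon' : ∃ (n : ℕ) (m : M), n ≠ 0 ∧ n • m = 0 ∧ m ≠ 0 := by
    by_contra h
    apply hcon
    intro n m hn hm
    by_contra hm0
    exact h ⟨n, m, hn, hm, hm0⟩
  let Q : AddSubgroup M :=
    { carrier := {m | ∃ n : ℕ, n ≠ 0 ∧ n • m = 0}
      add_mem' := by
        rintro a b ⟨n, hn, ha⟩ ⟨k, hk, hb⟩
        refine ⟨n * k, Nat.mul_ne_zero hn hk, ?_⟩
        rw [nsmul_add, mul_comm n k, mul_smul, ha, nsmul_zero, zero_add, mul_comm k n, mul_smul,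
          hb, nsmul_zero]
      zero_mem' := ⟨1, one_ne_zero, nsmul_zero _⟩
      neg_mem' := by
        rintro a ⟨n, hn, ha⟩
        exact ⟨n, hn, by rw [smul_neg, ha, neg_zero]⟩ }
  have hQmem : ∀ m, m ∈ Q ↔ ∃ n : ℕ, n ≠ 0 ∧ n • m = 0 := fun _ => Iff.rfl
  have hQT : ∀ g, ∀ m ∈ Q, T g m ∈ Q := by
    rintro g m ⟨n, hn, hm⟩
    exact ⟨n, hn, by rw [← map_nsmul, hm, map_zero]⟩
  have π1 : π 1 = 0 := pi_one T π hπ
  have hH : ∀ g h, π g ∈ Q → π h ∈ Q → π (g * h) ∈ Q := by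
    intro g h hg hh
    rw [hπ]; exact Q.add_mem hg (hQT g _ hh)
  have hHinv : ∀ g, π g ∈ Q → π g⁻¹ ∈ Q := by
    intro g hg
    have e := hπ g⁻¹ g
    rw [inv_mul_cancel, π1] at e
    have : π g⁻¹ = - T g⁻¹ (π g) := eq_neg_of_add_eq_zero_left e.symm
    rw [this]; exact Q.neg_mem (hQT _ _ hg)
  -- a nontrivial central element of H
  obtain ⟨z, hz1, hzQ, hzc⟩ : ∃ z : G, z ≠ 1 ∧ π z ∈ Q ∧ ∀ h, π h ∈ Q → Commute z h := by
    obtain ⟨n, m, hn, hnm, hm⟩ := hcon'
    obtain ⟨g, rfl⟩ := bij.2 m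
    have hgQ : π g ∈ Q := ⟨n, hn, hnm⟩
    by_cases hab : ∀ h, π h ∈ Q → Commute g h
    · exact ⟨g, fun e => hm (by rw [e, π1]), hgQ, hab⟩
    · push Not at hab
      obtain ⟨h, hhQ, hgh⟩ := hab
      obtain ⟨z, hz, hzc⟩ := cls g h
      refine ⟨z, ?_, ?_, fun x _ => hzc x⟩
      · intro e
        rw [e, mul_one] at hz
        exact hgh hz
      · have : z = (h * g)⁻¹ * (g * h) := by rw [hz]; group
        rw [this]
        exact hH _ _ (hHinv _ (hH _ _ hhQ hgQ)) (hH _ _ hgQ hhQ)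
  obtain ⟨k, hk⟩ := nil_aux T π hπ bij.1 r dep z Q hzQ (hQT z) (by
    intro m hm
    obtain ⟨h, rfl⟩ := bij.2 m
    exact ⟨h, rfl, hzc h hm⟩)
  obtain ⟨n, hn, hnv⟩ := hzQ
  -- some power of T z fixes π z
  have key : ∀ k : ℕ, ∃ N : ℕ, N ≠ 0 ∧ ∀ w : M, n • w = 0 → ((T z - 1) ^ k) w = 0 →
      ((T z) ^ N) w = w := by
    intro k
    induction k with
    | zero =>
      refine ⟨1, one_ne_zero, ?_⟩
      intro w _ hw
      have : w = 0 := hw
      rw [this, map_zero]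
    | succ k ih =>
      obtain ⟨N, hN, hN2⟩ := ih
      refine ⟨N * n, Nat.mul_ne_zero hN hn, ?_⟩
      intro w hw1 hw2
      have h1 : ((T z - 1) ^ k) ((T z - 1) w) = 0 := by
        rw [← E_mul, ← pow_succ]; exact hw2
      have h2 := hN2 _ (by rw [← map_nsmul, hw1, map_zero]) h1
      set δ := ((T z) ^ N) w - w with hδ
      have hc : Commute (T z - 1) ((T z) ^ N) :=
        ((Commute.refl (T z)).pow_right N).sub_left (Commute.one_left _)
      have h3 : (T z - 1) δ = 0 := by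
        rw [hδ, map_sub, ← E_mul, hc.eq, E_mul, h2, sub_self]
      have h4 : T z δ = δ := by
        rw [E_sub, E_one] at h3
        exact sub_eq_zero.1 h3
      have h5 : ∀ j : ℕ, ((T z) ^ j) δ = δ := by
        intro j
        induction j with
        | zero => rfl
        | succ j ihj => rw [pow_succ, E_mul, h4, ihj]
      have h6 : ∀ j : ℕ, ((T z) ^ (N * j)) w = w + j • δ := by
        intro j
        induction j with
        | zero => simp
        | succ j ihj =>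
          rw [Nat.mul_succ, pow_add, E_mul]
          have : ((T z) ^ N) w = w + δ := by rw [hδ]; abel
          rw [this, map_add, ihj, h5, succ_nsmul]
          abel
      rw [h6 n]
      have : n • δ = 0 := by
        rw [hδ, nsmul_sub, ← map_nsmul, hw1, map_zero, sub_zero]
      rw [this, add_zero]
  obtain ⟨N, hN, hN2⟩ := key k
  have hfix : ((T z) ^ N) (π z) = π z := hN2 _ hnv hk
  have hfix2 : ∀ j : ℕ, ((T z) ^ N) (π (z ^ j)) = π (z ^ j) ∧ n • π (z ^ j) = 0 := by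
    intro j
    induction j with
    | zero => rw [pow_zero, π1, map_zero, nsmul_zero]; exact ⟨rfl, rfl⟩
    | succ j ihj =>
      rw [pow_succ z j, hπ, map_add, ihj.1, map_pow, ← E_mul, ← pow_add, add_comm N j, pow_add,
        E_mul, hfix]
      refine ⟨rfl, ?_⟩
      rw [nsmul_add, ihj.2, ← map_nsmul, hnv, map_zero, add_zero]
  have h7 : ∀ j : ℕ, π (z ^ (N * j)) = j • π (z ^ N) := by
    intro j
    induction j with
    | zero => simp [π1]
    | succ j ihj =>
      rw [Nat.mul_succ, add_comm, pow_add, hπ, ihj, map_nsmul, map_pow, (hfix2 N).1, succ_nsmul,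
        add_comm]
  have h8 : π (z ^ (N * n)) = π 1 := by
    rw [h7, (hfix2 N).2, π1]
  have h9 := bij.1 h8
  exact hz1 (tfG _ _ (Nat.mul_ne_zero hN hn) h9)

end

/-- The rigidity data of the group. -/
structure RD (G A C : Type) [Group G] [AddCommGroup A] [AddCommGroup C] where
  ι : C → G
  ι_add : ∀ c d, ι (c + d) = ι c * ι d
  ι_inj : Function.Injective ι
  ι_central : ∀ c g, Commute (ι c) g
  q : G → A
  q_mul : ∀ g h, q (g * h) = q g + q h
  q_surj : Function.Surjective q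
  q_ker : ∀ g, q g = 0 → ∃ c, g = ι c
  q_ι : ∀ c, q (ι c) = 0
  ω : A → A → C
  comm : ∀ g h, g * h = h * g * ι (ω (q g) (q h))
  tfG : ∀ (n : ℕ) (g : G), n ≠ 0 → g ^ n = 1 → g = 1
  tfA : TF A
  r : ℕ
  depG : Dep G r
  depA : Dep (Multiplicative A) r
  H1 : ∀ φ : C → G, (∀ c d, φ (c + d) = φ c * φ d) →
    ∃ n : ℕ, ∃ m : ℤ, n ≠ 0 ∧ ∀ c, ∃ d, φ c = ι d ∧ n • d = m • c
  H2 : ∀ φ : A → A, (∀ a b, φ (a + b) = φ a + φ b) →
    ∃ n : ℕ, ∃ m : ℤ, n ≠ 0 ∧ ∀ a, n • φ a = m • a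
  FC : Finset C
  hFC : ∀ x : C, ∃ n : ℕ, n ≠ 0 ∧ n • x ∈ AddSubgroup.closure (FC : Set C)
  FA : Finset A
  hFA : ∀ x : A, ∃ n : ℕ, n ≠ 0 ∧ n • x ∈ AddSubgroup.closure (FA : Set A)
  rkC : ∀ y : C, ∃ x : C, ∀ a b : ℤ, a • x = b • y → a = 0
  rkA : ∀ y : A, ∃ x : A, ∀ a b : ℤ, a • x = b • y → a = 0
  E : ∀ β : A → A → C, (∀ u u' v, β (u + u') v = β u v + β u' v) →
    (∀ u v v', β u (v + v') = β u v + β u v') → (∀ u v, β u v - β v u = ω u v) → False

section
variable {G A C : Type} [Group G] [AddCommGroup A] [AddCommGroup C] (D : RD G A C)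
  {M : Type v} [AddCommGroup M]

include D in
theorem RD.ι_zero : D.ι 0 = 1 := by
  have := D.ι_add 0 0
  rw [add_zero] at this
  exact (mul_eq_left.1 this.symm)

/-- induced endomorphism of the quotient -/
def bar (P : AddSubgroup M) (t : AddMonoid.End M) (h : ∀ m ∈ P, t m ∈ P) :
    AddMonoid.End (M ⧸ P) := QuotientAddGroup.map P P (t : M →+ M) h

theorem bar_mk (P : AddSubgroup M) (t : AddMonoid.End M) (h : ∀ m ∈ P, t m ∈ P) (m : M) :
    bar P t h (QuotientAddGroup.mk m) = (QuotientAddGroup.mk (t m) : M ⧸ P) := rfl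

/-- Step B -/
theorem stepB (tf : TF M) (T : G →* AddMonoid.End M) (π : G → M)
    (hπ : ∀ g h, π (g * h) = π g + T g (π h)) (bij : Function.Bijective π) :
    ∀ c d, T (D.ι c) (π (D.ι d)) = π (D.ι d) := by
  have nil : ∀ c, ∃ k : ℕ, (T (D.ι c) - 1) ^ k = 0 := fun c =>
    nil_all T π hπ bij D.r D.depG (D.ι c) (D.ι_central c)
  refine lemmaB tf (fun c => T (D.ι c)) (by show T (D.ι 0) = 1; rw [D.ι_zero, map_one])
    (fun x y => by show T (D.ι (x + y)) = _; rw [D.ι_add, map_mul])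
    (fun c => π (D.ι c)) (fun x y => by show π (D.ι (x + y)) = _; rw [D.ι_add, hπ])
    (fun x y h => D.ι_inj (bij.1 h)) nil D.FC D.hFC D.rkC ?_
  intro ψ hψ1 hψ2 hψ3
  choose φ hφ using fun c => bij.2 (ψ c)
  have hfix : ∀ c d, T (φ c) (ψ d) = ψ d := by
    intro c d
    apply hψ3 (T (φ c))
    · intro x
      exact ((D.ι_central x (φ c)).symm.map T)
    · intro y
      have e := cocycle_comm T π hπ (D.ι_central y (φ c)).symm
      rw [hφ c] at e
      have e2 : T (D.ι y) (ψ c) = ψ c := hψ2 c y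
      rw [e2, sub_self] at e
      exact sub_eq_zero.1 e
  have hφadd : ∀ c d, φ (c + d) = φ c * φ d := by
    intro c d
    apply bij.1
    rw [hπ, hφ, hφ, hφ, hfix, hψ1]
  obtain ⟨n, m, hn, hnm⟩ := D.H1 φ hφadd
  refine ⟨n, m, hn, fun c => ?_⟩
  obtain ⟨d, hd1, hd2⟩ := hnm c
  have e1 : ∀ j : ℕ, π (D.ι (j • d)) = j • π (D.ι d) := by
    intro j
    induction j with
    | zero => rw [zero_nsmul, zero_nsmul, D.ι_zero, pi_one T π hπ]
    | succ j ih =>
      rw [succ_nsmul, succ_nsmul, D.ι_add, hπ, ih, ← hd1, hφ c]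
      congr 1
      exact hψ2 c (j • d)
  show n • ψ c = π (D.ι (m • c))
  rw [← hd2, e1, ← hd1, hφ]

end

end Pool.Agent.H8NB
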