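import Pool.Agent.H8NB.Xi
import Pool.Agent.H8NB.Main

set_option autoImplicit false

namespace Pool.Agent.H8NB

/-- rational 3-space -/
abbrev V : Type := ℚ × ℚ × ℚ

/-- cross product on `ℚ³` -/
def cr (u v : V) : V :=
  (u.2.1 * v.2.2 - u.2.2 * v.2.1, u.2.2 * v.1 - u.1 * v.2.2, u.1 * v.2.1 - u.2.1 * v.1)

theorem V_ext {u v : V} (h1 : u.1 = v.1) (h2 : u.2.1 = v.2.1) (h3 : u.2.2 = v.2.2) : u = v :=
  Prod.ext h1 (Prod.ext h2 h3)

/-- the first linear form on `u` -/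
noncomputable def α1 (u : V) : ℚ_[2] := u.1 + ξ * u.2.2
/-- the second linear form on `u` -/
noncomputable def α2 (u : V) : ℚ_[2] := u.2.1 + ξ ^ 3 * u.2.2
/-- the linear form on `x` -/
noncomputable def γ (x : V) : ℚ_[2] := x.2.2 - ξ * x.1 - ξ ^ 3 * x.2.1

theorem α1_add (u v : V) : α1 (u + v) = α1 u + α1 v := by
  simp only [α1, Prod.fst_add, Prod.snd_add]; push_cast; ring
theorem α2_add (u v : V) : α2 (u + v) = α2 u + α2 v := by
  simp only [α2, Prod.fst_add, Prod.snd_add]; push_cast; ring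
theorem γ_add (u v : V) : γ (u + v) = γ u + γ v := by
  simp only [γ, Prod.fst_add, Prod.snd_add]; push_cast; ring
theorem α1_neg (u : V) : α1 (-u) = -α1 u := by
  simp only [α1, Prod.fst_neg, Prod.snd_neg]; push_cast; ring
theorem α2_neg (u : V) : α2 (-u) = -α2 u := by
  simp only [α2, Prod.fst_neg, Prod.snd_neg]; push_cast; ring
theorem γ_neg (u : V) : γ (-u) = -γ u := by
  simp only [γ, Prod.fst_neg, Prod.snd_neg]; push_cast; ring
theorem α1_zero : α1 0 = 0 := by simp [α1]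
theorem α2_zero : α2 0 = 0 := by simp [α2]
theorem γ_zero : γ 0 = 0 := by simp [γ]
theorem α1_smul (q : ℚ) (u : V) : α1 (q • u) = q * α1 u := by
  simp only [α1, Prod.smul_fst, Prod.smul_snd, smul_eq_mul]; push_cast; ring
theorem α2_smul (q : ℚ) (u : V) : α2 (q • u) = q * α2 u := by
  simp only [α2, Prod.smul_fst, Prod.smul_snd, smul_eq_mul]; push_cast; ring
theorem γ_smul (q : ℚ) (u : V) : γ (q • u) = q * γ u := by
  simp only [γ, Prod.smul_fst, Prod.smul_snd, smul_eq_mul]; push_cast; ring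

/-- the basic identity -/
theorem γ_cr (u v : V) : γ (cr u v) = α1 u * α2 v - α2 u * α1 v := by
  simp only [γ, cr, α1, α2]; push_cast; ring

theorem γ_inj {x : V} (h : γ x = 0) : x = 0 := by
  have := indep x.2.2 (-x.1) 0 (-x.2.1) 0 0 (by
    simp only [γ] at h; push_cast; linear_combination h)
  obtain ⟨h0, h1, _, h3, _, _⟩ := this
  exact V_ext (by simpa using h1) (by simpa using h3) (by simpa using h0)

theorem α_inj {u : V} (h1 : α1 u = 0) (h2 : α2 u = 0) : u = 0 := by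
  have e1 := indep u.1 u.2.2 0 0 0 0 (by
    simp only [α1] at h1; push_cast; linear_combination h1)
  have e2 := indep u.2.1 0 0 u.2.2 0 0 (by
    simp only [α2] at h2; push_cast; linear_combination h2)
  exact V_ext e1.1 e2.1 e1.2.1

theorem γ_eq {x y : V} (h : γ x = γ y) : x = y := by
  have : γ (x - y) = 0 := by rw [sub_eq_add_neg, γ_add, γ_neg, h]; ring
  exact sub_eq_zero.1 (γ_inj this)

theorem α_eq {x y : V} (h1 : α1 x = α1 y) (h2 : α2 x = α2 y) : x = y := by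
  have e1 : α1 (x - y) = 0 := by rw [sub_eq_add_neg, α1_add, α1_neg, h1]; ring
  have e2 : α2 (x - y) = 0 := by rw [sub_eq_add_neg, α2_add, α2_neg, h2]; ring
  exact sub_eq_zero.1 (α_inj e1 e2)

def e0 : V := (1, 0, 0)
def e1 : V := (0, 1, 0)
def e2 : V := (0, 0, 1)

theorem α1_e0 : α1 e0 = 1 := by simp [α1, e0]
theorem α1_e1 : α1 e1 = 0 := by simp [α1, e1]
theorem α1_e2 : α1 e2 = ξ := by simp [α1, e2]
theorem α2_e0 : α2 e0 = 0 := by simp [α2, e0]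
theorem α2_e1 : α2 e1 = 1 := by simp [α2, e1]
theorem α2_e2 : α2 e2 = ξ ^ 3 := by simp [α2, e2]
theorem γ_e0 : γ e0 = -ξ := by simp [γ, e0]
theorem γ_e1 : γ e1 = -ξ ^ 3 := by simp [γ, e1]
theorem γ_e2 : γ e2 = 1 := by simp [γ, e2]

/-- the group `A` -/
noncomputable def A : AddSubgroup V where
  carrier := {u | ‖α1 u‖ ≤ 1 ∧ ‖α2 u‖ ≤ 1}
  add_mem' := by
    rintro a b ⟨h1, h2⟩ ⟨h3, h4⟩
    exact ⟨by rw [α1_add]; exact nadd h1 h3, by rw [α2_add]; exact nadd h2 h4⟩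
  zero_mem' := by
    refine ⟨?_, ?_⟩
    · rw [α1_zero]; simp
    · rw [α2_zero]; simp
  neg_mem' := by
    rintro a ⟨h1, h2⟩
    exact ⟨by rw [α1_neg]; exact nneg h1, by rw [α2_neg]; exact nneg h2⟩

/-- the group `C` -/
noncomputable def C : AddSubgroup V where
  carrier := {u | ‖γ u‖ ≤ 1}
  add_mem' := by
    intro a b h1 h2
    show ‖γ (a + b)‖ ≤ 1
    rw [γ_add]; exact nadd h1 h2
  zero_mem' := by
    show ‖γ 0‖ ≤ 1
    rw [γ_zero]; simp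
  neg_mem' := by
    intro a h1
    show ‖γ (-a)‖ ≤ 1
    rw [γ_neg]; exact nneg h1

theorem mem_A (u : V) : u ∈ A ↔ ‖α1 u‖ ≤ 1 ∧ ‖α2 u‖ ≤ 1 := Iff.rfl
theorem mem_C (u : V) : u ∈ C ↔ ‖γ u‖ ≤ 1 := Iff.rfl

theorem e0A : e0 ∈ A := by rw [mem_A, α1_e0, α2_e0]; simp
theorem e1A : e1 ∈ A := by rw [mem_A, α1_e1, α2_e1]; simp
theorem e2A : e2 ∈ A := by
  rw [mem_A, α1_e2, α2_e2]; exact ⟨ξ_norm, npow ξ_norm 3⟩
theorem e0C : e0 ∈ C := by rw [mem_C, γ_e0]; exact nneg ξ_norm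
theorem e1C : e1 ∈ C := by rw [mem_C, γ_e1]; exact nneg (npow ξ_norm 3)
theorem e2C : e2 ∈ C := by rw [mem_C, γ_e2]; simp

/-- rigidity for `C` -/
theorem rigC (φ : C → ℚ_[2]) (hφ : ∀ a b, φ (a + b) = φ a + φ b) (hb : ∀ a, ‖φ a‖ ≤ 1) (c : C) :
    φ c = γ c * φ ⟨e2, e2C⟩ := by
  let φ' : C →+ ℚ_[2] := AddMonoidHom.mk' φ hφ
  rw [← sub_eq_zero]
  apply eq_zero_of_forall
  intro n
  obtain ⟨m, w, hw, hz⟩ := approx (γ c) c.2 n
  let c' : V := ((1 / 2 ^ n : ℚ)) • ((c : V) - (m : ℚ) • e2)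
  have hc' : γ c' = w := by
    simp only [c']
    rw [γ_smul, sub_eq_add_neg, γ_add, γ_neg, γ_smul, γ_e2, hz]
    push_cast
    field_simp
    ring
  have hc'C : c' ∈ C := by rw [mem_C, hc']; exact hw
  have e : c = m • (⟨e2, e2C⟩ : C) + (2 ^ n : ℕ) • (⟨c', hc'C⟩ : C) := by
    apply Subtype.ext
    push_cast
    simp only [c']
    rw [← Nat.cast_smul_eq_nsmul ℚ, smul_smul, ← Int.cast_smul_eq_zsmul ℚ m e2]
    push_cast
    rw [mul_one_div_cancel (by positivity), one_smul]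
    abel
  have e' : φ c = m * φ ⟨e2, e2C⟩ + 2 ^ n * φ ⟨c', hc'C⟩ := by
    have h1 : φ' c = m • φ' ⟨e2, e2C⟩ + (2 ^ n : ℕ) • φ' ⟨c', hc'C⟩ := by
      rw [← map_zsmul, ← map_nsmul, ← map_add, ← e]
    rw [zsmul_eq_mul, nsmul_eq_mul] at h1
    push_cast at h1
    exact h1
  refine ⟨φ ⟨c', hc'C⟩ - w * φ ⟨e2, e2C⟩, nsub (hb _) (nmul hw (hb _)), ?_⟩
  rw [e', hz]; ring

/-- rigidity for `A` -/
theorem rigA (φ : A → ℚ_[2]) (hφ : ∀ a b, φ (a + b) = φ a + φ b) (hb : ∀ a, ‖φ a‖ ≤ 1) (c : A) :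
    φ c = α1 c * φ ⟨e0, e0A⟩ + α2 c * φ ⟨e1, e1A⟩ := by
  let φ' : A →+ ℚ_[2] := AddMonoidHom.mk' φ hφ
  rw [← sub_eq_zero]
  apply eq_zero_of_forall
  intro n
  obtain ⟨m, w, hw, hz⟩ := approx (α1 c) c.2.1 n
  obtain ⟨m', w', hw', hz'⟩ := approx (α2 c) c.2.2 n
  let c' : V := ((1 / 2 ^ n : ℚ)) • ((c : V) - (m : ℚ) • e0 - (m' : ℚ) • e1)
  have hc' : α1 c' = w := by
    simp only [c']
    rw [α1_smul, sub_eq_add_neg, sub_eq_add_neg, α1_add, α1_neg, α1_add, α1_neg, α1_smul, α1_smul,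
      α1_e0, α1_e1, hz]
    push_cast
    field_simp
    ring
  have hc'' : α2 c' = w' := by
    simp only [c']
    rw [α2_smul, sub_eq_add_neg, sub_eq_add_neg, α2_add, α2_neg, α2_add, α2_neg, α2_smul, α2_smul,
      α2_e0, α2_e1, hz']
    push_cast
    field_simp
    ring
  have hc'A : c' ∈ A := by rw [mem_A, hc', hc'']; exact ⟨hw, hw'⟩
  have e : c = m • (⟨e0, e0A⟩ : A) + m' • (⟨e1, e1A⟩ : A) + (2 ^ n : ℕ) • (⟨c', hc'A⟩ : A) := by
    apply Subtype.ext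
    push_cast
    simp only [c']
    rw [← Nat.cast_smul_eq_nsmul ℚ, smul_smul, ← Int.cast_smul_eq_zsmul ℚ m e0,
      ← Int.cast_smul_eq_zsmul ℚ m' e1]
    push_cast
    rw [mul_one_div_cancel (by positivity), one_smul]
    abel
  have e' : φ c = m * φ ⟨e0, e0A⟩ + m' * φ ⟨e1, e1A⟩ + 2 ^ n * φ ⟨c', hc'A⟩ := by
    have h1 : φ' c = m • φ' ⟨e0, e0A⟩ + m' • φ' ⟨e1, e1A⟩ + (2 ^ n : ℕ) • φ' ⟨c', hc'A⟩ := by
      rw [← map_zsmul, ← map_zsmul, ← map_nsmul, ← map_add, ← map_add, ← e]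
    rw [zsmul_eq_mul, zsmul_eq_mul, nsmul_eq_mul] at h1
    push_cast at h1
    exact h1
  refine ⟨φ ⟨c', hc'A⟩ - w * φ ⟨e0, e0A⟩ - w' * φ ⟨e1, e1A⟩,
    nsub (nsub (hb _) (nmul hw (hb _))) (nmul hw' (hb _)), ?_⟩
  rw [e', hz, hz']; ring

/-- `Hom(C, A) = 0` -/
theorem homCA (φ : C → A) (hφ : ∀ a b, φ (a + b) = φ a + φ b) (c : C) : φ c = 0 := by
  have h1 := rigC (fun c => α1 (φ c)) (fun a b => by rw [hφ]; exact α1_add _ _)
    (fun a => (φ a).2.1)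
  have h2 := rigC (fun c => α2 (φ c)) (fun a b => by rw [hφ]; exact α2_add _ _)
    (fun a => (φ a).2.2)
  set v : V := (φ ⟨e2, e2C⟩ : V) with hv
  set w : V := (φ ⟨e0, e0C⟩ : V) with hw
  have e1 := h1 ⟨e0, e0C⟩
  have e2 := h2 ⟨e0, e0C⟩
  simp only [γ_e0, ← hw] at e1 e2
  -- w0 + ξ w2 = -ξ (v0 + ξ v2)
  have i1 := indep w.1 (w.2.2 + v.1) v.2.2 0 0 0 (by
    simp only [α1] at e1; push_cast; linear_combination e1)
  -- w1 + ξ^3 w2 = -ξ (v1 + ξ^3 v2)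
  have i2 := indep w.2.1 v.2.1 0 w.2.2 v.2.2 0 (by
    simp only [α2] at e2; push_cast; linear_combination e2)
  have hv0 : v = 0 := by
    apply V_ext
    · have := i1.2.1
      have h3 := i2.2.2.2.1
      rw [h3, zero_add] at this
      exact this
    · exact i2.2.1
    · exact i1.2.2.1
  apply Subtype.ext
  apply α_inj
  · have : α1 (φ c) = γ c * α1 v := h1 c
    rw [this, hv0, α1_zero, mul_zero]
  · have : α2 (φ c) = γ c * α2 v := h2 c
    rw [this, hv0, α2_zero, mul_zero]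

/-- `End(C)` is rational -/
theorem endC (φ : C → C) (hφ : ∀ a b, φ (a + b) = φ a + φ b) :
    ∃ q : ℚ, ∀ c, (φ c : V) = q • (c : V) := by
  have h1 := rigC (fun c => γ (φ c)) (fun a b => by rw [hφ]; exact γ_add _ _)
    (fun a => (φ a).2)
  set y : V := (φ ⟨e2, e2C⟩ : V) with hy
  set z : V := (φ ⟨e0, e0C⟩ : V) with hz
  have e1 := h1 ⟨e0, e0C⟩
  simp only [γ_e0, ← hz] at e1
  have i1 := indep z.2.2 (-z.1 + y.2.2) (-y.1) (-z.2.1) (-y.2.1) 0 (by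
    simp only [γ] at e1; push_cast; linear_combination e1)
  have y0 : y.1 = 0 := by simpa using i1.2.2.1
  have y1 : y.2.1 = 0 := by simpa using i1.2.2.2.2.1
  refine ⟨y.2.2, fun c => ?_⟩
  apply γ_eq
  have : γ (φ c) = γ c * γ y := h1 c
  rw [this, γ_smul]
  simp only [γ, y0, y1]
  push_cast
  ring

/-- `End(A)` is rational -/
theorem endA (φ : A → A) (hφ : ∀ a b, φ (a + b) = φ a + φ b) :
    ∃ q : ℚ, ∀ c, (φ c : V) = q • (c : V) := by
  have h1 := rigA (fun c => α1 (φ c)) (fun a b => by rw [hφ]; exact α1_add _ _)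
    (fun a => (φ a).2.1)
  have h2 := rigA (fun c => α2 (φ c)) (fun a b => by rw [hφ]; exact α2_add _ _)
    (fun a => (φ a).2.2)
  set p : V := (φ ⟨e0, e0A⟩ : V) with hp
  set q : V := (φ ⟨e1, e1A⟩ : V) with hq
  set w : V := (φ ⟨e2, e2A⟩ : V) with hw
  have f1 := h1 ⟨e2, e2A⟩
  have f2 := h2 ⟨e2, e2A⟩
  simp only [α1_e2, α2_e2, ← hw] at f1 f2
  -- w0+ξw2 = ξ(p0+ξp2)+ξ^3(q0+ξq2)
  have i1 := indep w.1 (w.2.2 - p.1) (-p.2.2) (-q.1) (-q.2.2) 0 (by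
    simp only [α1] at f1; push_cast; linear_combination f1)
  -- w1+ξ^3w2 = ξ(p1+ξ^3p2)+ξ^3(q1+ξ^3q2)
  have i2 := indep w.2.1 (-p.2.1) 0 (w.2.2 - q.2.1) (-p.2.2) (-q.2.2) (by
    simp only [α2] at f2; push_cast; linear_combination f2)
  have p1 : p.2.1 = 0 := by simpa using i2.2.1
  have p2 : p.2.2 = 0 := by simpa using i1.2.2.1
  have q0 : q.1 = 0 := by simpa using i1.2.2.2.1
  have q2 : q.2.2 = 0 := by simpa using i1.2.2.2.2.1
  have pq : q.2.1 = p.1 := by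
    have h3 := i1.2.1
    have h4 := i2.2.2.2.1
    linarith
  refine ⟨p.1, fun c => ?_⟩
  apply α_eq
  · have : α1 (φ c) = α1 c * α1 p + α2 c * α1 q := h1 c
    rw [this, α1_smul]
    simp only [α1, p2, q0, q2]
    push_cast
    ring
  · have : α2 (φ c) = α1 c * α2 p + α2 c * α2 q := h2 c
    rw [this, α2_smul]
    simp only [α2, p1, p2, q2, pq]
    push_cast
    ring

end Pool.Agent.H8NB
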