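import Mathlib

set_option autoImplicit false

namespace Pool.Agent.H8NB

open Polynomial

theorem jac_int : IsJacobsonRing ℤ := by
  rw [isJacobsonRing_iff_prime_eq]
  intro P hP
  by_cases h : P = ⊥
  · subst h
    rw [eq_bot_iff]
    intro x hx
    rw [Ideal.mem_jacobson_bot] at hx
    have h1 := hx x
    rw [Int.isUnit_iff] at h1
    rw [Ideal.mem_bot]
    rcases h1 with h1 | h1
    · have : x * x = 0 := by linarith
      exact mul_self_eq_zero.1 this
    · exfalso
      nlinarith [mul_self_nonneg x]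
  · have : P.IsMaximal := IsPrime.to_maximal_ideal h
    exact Ideal.jacobson_eq_self_of_isMaximal

/-- In a Jacobson domain, a nonzero nonunit... : many pairwise coprime nonunits `1 + x f`. -/
theorem exists_many (D : Type*) [CommRing D] [IsDomain D] [IsJacobsonRing D] (x : D)
    (hx : x ≠ 0) (hu : ∀ f : D, 1 + x * f ≠ 0) (r : ℕ) :
    ∃ f : Fin r → D, (∀ i, ¬ IsUnit (1 + x * f i)) ∧
      ∀ i j, i ≠ j → IsCoprime (1 + x * f i) (1 + x * f j) := by
  have key : ∀ y : D, y ≠ 0 → ∃ f : D, ¬ IsUnit (1 + y * f) := by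
    intro y hy
    by_contra hcon
    push Not at hcon
    apply hy
    have h1 : (⊥ : Ideal D).jacobson = ⊥ :=
      (isJacobsonRing_iff_prime_eq.1 ‹IsJacobsonRing D›) ⊥ Ideal.isPrime_bot
    have h2 : y ∈ (⊥ : Ideal D).jacobson := by
      rw [Ideal.mem_jacobson_bot]
      intro f
      have := hcon f
      rwa [add_comm] at this
    rw [h1] at h2
    exact (Ideal.mem_bot.1 h2)
  induction r with
  | zero => exact ⟨fun i => i.elim0, fun i => i.elim0, fun i => i.elim0⟩
  | succ r ih =>
    obtain ⟨f, hf1, hf2⟩ := ih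
    set P : D := ∏ i, (1 + x * f i) with hP
    have hP0 : P ≠ 0 := by
      rw [hP]
      exact Finset.prod_ne_zero_iff.2 (fun i _ => hu (f i))
    obtain ⟨g, hg⟩ := key (x * P) (mul_ne_zero hx hP0)
    have hcop : ∀ i, IsCoprime (1 + x * (P * g)) (1 + x * f i) := by
      intro i
      have hd : (1 + x * f i) ∣ P := by
        rw [hP]; exact Finset.dvd_prod_of_mem _ (Finset.mem_univ i)
      obtain ⟨c, hc⟩ := hd
      refine ⟨1, -(x * g * c), ?_⟩
      rw [hc]; ring
    refine ⟨Fin.cons (P * g) f, ?_, ?_⟩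
    · intro i
      refine Fin.cases ?_ (fun j => ?_) i
      · simpa [mul_assoc] using hg
      · simpa using hf1 j
    · intro i j
      refine Fin.cases ?_ (fun i' => ?_) i <;> refine Fin.cases ?_ (fun j' => ?_) j
      · intro h; exact absurd rfl h
      · intro _; simpa using hcop j'
      · intro _; simpa using (hcop i').symm
      · intro h
        have : i' ≠ j' := fun e => h (by rw [e])
        simpa using hf2 i' j' this

/-- multiplicatively independent -/
theorem no_rel (D : Type*) [CommRing D] (r : ℕ) (u : Fin r → D)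
    (h1 : ∀ i, ¬ IsUnit (u i)) (h2 : ∀ i j, i ≠ j → IsCoprime (u i) (u j))
    (a b : Fin r → ℕ) (hab : ∀ i, a i = 0 ∨ b i = 0) (k : Fin r) (hk : a k ≠ 0)
    (h : ∏ i, u i ^ a i = ∏ i, u i ^ b i) : False := by
  have hd : u k ∣ ∏ i, u i ^ b i := by
    rw [← h]
    exact (dvd_pow_self (u k) hk).trans (Finset.dvd_prod_of_mem _ (Finset.mem_univ k))
  have hc : IsCoprime (u k) (∏ i, u i ^ b i) := by
    apply IsCoprime.prod_right
    intro i _
    by_cases hik : i = k
    · subst hik
      rcases hab i with h0 | h0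
      · exact absurd h0 hk
      · rw [h0, pow_zero]; exact isCoprime_one_right
    · exact (h2 k i (Ne.symm hik)).pow_right
  exact h1 k (hc.isUnit_of_dvd' dvd_rfl hd)

/-- Lemma A in ring form. -/
theorem ringA (S : Type*) [CommRing S] [IsJacobsonRing S] (x : S)
    (hreg : ∀ f w : S, (1 + x * f) * w = 0 → w = 0) (r : ℕ)
    (hdep : ∀ f : Fin r → S, ∃ a b : Fin r → ℕ, (∀ i, a i = 0 ∨ b i = 0) ∧
      (∃ k, a k ≠ 0 ∨ b k ≠ 0) ∧ ∏ i, (1 + x * f i) ^ a i = ∏ i, (1 + x * f i) ^ b i) :
    IsNilpotent x := by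
  by_contra hx
  have h1 : x ∉ nilradical S := fun h => hx (mem_nilradical.1 h)
  have h2 : nilradical S = sInf (minimalPrimes S) := by
    have := Ideal.sInf_minimalPrimes (I := (⊥ : Ideal S))
    exact this.symm
  rw [h2] at h1
  obtain ⟨p, hp, hxp⟩ : ∃ p ∈ minimalPrimes S, x ∉ p := by
    by_contra hcon
    push Not at hcon
    exact h1 (Submodule.mem_sInf.2 hcon)
  have hpp : p.IsPrime := hp.1.1
  have hnz : ∀ f : S, (1 + x * f) ∉ p := by
    intro f hf
    have hd := Ideal.disjoint_nonZeroDivisors_of_mem_minimalPrimes hp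
    refine Set.disjoint_left.1 hd hf ?_
    rw [SetLike.mem_coe, mem_nonZeroDivisors_iff]
    constructor
    · intro w hw; exact hreg f w hw
    · intro w hw; exact hreg f w (by rw [mul_comm]; exact hw)
  let D := S ⧸ p
  have : IsDomain D := Ideal.Quotient.isDomain p
  have : IsJacobsonRing D := isJacobsonRing_quotient
  have hx0 : (Ideal.Quotient.mk p x) ≠ 0 := fun h => hxp (Ideal.Quotient.eq_zero_iff_mem.1 h)
  have hu : ∀ f : D, 1 + (Ideal.Quotient.mk p x) * f ≠ 0 := by
    intro f
    obtain ⟨f, rfl⟩ := Ideal.Quotient.mk_surjective f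
    intro h
    apply hnz f
    rw [← Ideal.Quotient.eq_zero_iff_mem]
    simpa using h
  obtain ⟨f, hf1, hf2⟩ := exists_many D (Ideal.Quotient.mk p x) hx0 hu r
  choose g hg using fun i => Ideal.Quotient.mk_surjective (f i)
  obtain ⟨a, b, hab, ⟨k, hk⟩, hrel⟩ := hdep g
  have hrel' : ∏ i, (1 + (Ideal.Quotient.mk p x) * f i) ^ a i
      = ∏ i, (1 + (Ideal.Quotient.mk p x) * f i) ^ b i := by
    have := congrArg (Ideal.Quotient.mk p) hrel
    simpa [map_prod, map_pow, map_add, map_mul, hg] using this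
  rcases hk with hk | hk
  · exact no_rel D r _ hf1 hf2 a b hab k hk hrel'
  · exact no_rel D r _ hf1 hf2 b a (fun i => (hab i).symm) k hk hrel'.symm

end Pool.Agent.H8NB
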