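import Pool.Agent.H8NB.Nil

set_option autoImplicit false

namespace Pool.Agent.H8NB

universe u v

section
variable {X : Type u} [AddCommGroup X] {M : Type v} [AddCommGroup M]

/-- torsion-freeness in elementary form -/
def TF (M : Type v) [AddCommGroup M] : Prop :=
  ∀ (n : ℕ) (m : M), n ≠ 0 → n • m = 0 → m = 0

theorem fix_pow (tf : TF M) (t : AddMonoid.End M) (n : ℕ) (hn : n ≠ 0) (k : ℕ) :
    ∀ w : M, (t ^ n) w = w → ((t - 1) ^ k) w = 0 → t w = w := by
  induction k with
  | zero =>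
    intro w _ h
    rw [pow_zero] at h
    have : w = 0 := h
    rw [this, map_zero]
  | succ k ih =>
    intro w h1 h2
    have hc : Commute t (t - 1) := (Commute.refl t).sub_right (Commute.one_right t)
    have h3 : (t ^ n) ((t - 1) w) = (t - 1) w := by
      rw [← E_mul, (hc.pow_left n).eq, E_mul, h1]
    have h4 : ((t - 1) ^ k) ((t - 1) w) = 0 := by
      rw [← E_mul, ← pow_succ]; exact h2
    have h5 := ih _ h3 h4
    have h6 : ∀ j : ℕ, (t ^ j) w = w + j • (t - 1) w := by
      intro j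
      induction j with
      | zero => simp
      | succ j ihj =>
        rw [pow_succ', E_mul, ihj, map_add, map_nsmul, h5, succ_nsmul]
        have : t w = w + (t - 1) w := by rw [E_sub, E_one]; abel
        rw [this]; abel
    have h7 := h6 n
    rw [h1] at h7
    have h8 : n • (t - 1) w = 0 := by
      have : w + 0 = w + n • (t - 1) w := by rw [add_zero]; exact h7
      exact (add_left_cancel this).symm
    have h9 := tf n _ hn h8
    rw [E_sub, E_one] at h9
    exact sub_eq_zero.1 h9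

theorem T_nsmul (T : X → AddMonoid.End M) (hT0 : T 0 = 1) (hT : ∀ x y, T (x + y) = T x * T y)
    (x : X) (n : ℕ) : T (n • x) = T x ^ n := by
  induction n with
  | zero => simp [hT0]
  | succ n ih => rw [succ_nsmul, hT, ih, pow_succ]

theorem fix_closure (T : X → AddMonoid.End M) (hT0 : T 0 = 1)
    (hT : ∀ x y, T (x + y) = T x * T y) (F : Set X) (w : M) (hF : ∀ f ∈ F, T f w = w)
    (x : X) (hx : x ∈ AddSubgroup.closure F) : T x w = w := by
  induction hx using AddSubgroup.closure_induction with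
  | mem x hx => exact hF x hx
  | zero => rw [hT0]; rfl
  | add x y _ _ hx hy => rw [hT, E_mul, hy, hx]
  | neg x _ hx =>
    have h1 : T (-x) (T x w) = w := by
      rw [← E_mul, ← hT, neg_add_cancel, hT0]; rfl
    rw [hx] at h1
    exact h1

theorem exists_theta (T : X → AddMonoid.End M) (hT : ∀ x y, T (x + y) = T x * T y)
    (p : X → M) (nil : ∀ x, ∃ k : ℕ, (T x - 1) ^ k = 0)
    (hne : ∃ x y, (T x - 1) (p y) ≠ 0) (F : Finset X) :
    ∃ θ : AddMonoid.End M, (∀ U : AddMonoid.End M, (∀ x, Commute U (T x)) → Commute U θ) ∧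
      (∃ x y, θ ((T x - 1) (p y)) ≠ 0) ∧
      ∀ f ∈ F, ∀ x y, θ ((T f - 1) ((T x - 1) (p y))) = 0 := by
  classical
  have hTc : ∀ x y, Commute (T x) (T y) := by
    intro x y
    show T x * T y = T y * T x
    rw [← hT, ← hT, add_comm]
  induction F using Finset.induction_on with
  | empty =>
    refine ⟨1, fun U _ => Commute.one_right U, ?_, by simp⟩
    obtain ⟨x, y, h⟩ := hne
    exact ⟨x, y, h⟩
  | insert f F _ ih =>
    obtain ⟨θ, h1, h2, h3⟩ := ih
    have hex : ∃ a : ℕ, ∀ x y, θ (((T f - 1) ^ a) ((T x - 1) (p y))) = 0 := by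
      obtain ⟨k, hk⟩ := nil f
      refine ⟨k, fun x y => ?_⟩
      rw [hk]
      exact map_zero θ
    set a := Nat.find hex with ha
    have ha1 := Nat.find_spec hex
    rw [← ha] at ha1
    have ha0 : a ≠ 0 := by
      intro h0
      rw [h0] at ha1
      obtain ⟨x, y, hxy⟩ := h2
      exact hxy (ha1 x y)
    obtain ⟨b, hb⟩ : ∃ b, a = b + 1 := Nat.exists_eq_succ_of_ne_zero ha0
    have hb1 := Nat.find_min hex (m := b) (by omega)
    push Not at hb1
    obtain ⟨x0, y0, hxy0⟩ := hb1
    have hθT : ∀ x, Commute (T x) θ := fun x => h1 _ (fun y => hTc x y)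
    refine ⟨θ * (T f - 1) ^ b, ?_, ⟨x0, y0, hxy0⟩, ?_⟩
    · intro U hU
      exact (h1 U hU).mul_right (((hU f).sub_right (Commute.one_right U)).pow_right b)
    · intro f' hf' x y
      rcases Finset.mem_insert.1 hf' with h | h
      · rw [h]
        rw [hb, pow_succ] at ha1
        exact ha1 x y
      · have hc : Commute ((T f - 1) ^ b) (T f' - 1) := by
          apply Commute.pow_left
          exact ((hTc f f').sub_right (Commute.one_right _)).sub_left
            ((Commute.one_left _).sub_right (Commute.one_right _))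
        have hc2 : Commute θ ((T f - 1) ^ b) :=
          ((hθT f).symm.sub_right (Commute.one_right _)).pow_right b
        have e1 : (θ * (T f - 1) ^ b) ((T f' - 1) ((T x - 1) (p y)))
            = ((T f - 1) ^ b) (θ ((T f' - 1) ((T x - 1) (p y)))) := by
          rw [hc2.eq]; rfl
        rw [e1, h3 f' h x y, map_zero]

/-- Lemma B. -/
theorem lemmaB (tf : TF M) (T : X → AddMonoid.End M) (hT0 : T 0 = 1)
    (hT : ∀ x y, T (x + y) = T x * T y) (p : X → M) (hp : ∀ x y, p (x + y) = p x + T x (p y))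
    (inj : Function.Injective p) (nil : ∀ x, ∃ k : ℕ, (T x - 1) ^ k = 0)
    (F : Finset X) (hF : ∀ x : X, ∃ n : ℕ, n ≠ 0 ∧ n • x ∈ AddSubgroup.closure (F : Set X))
    (rk : ∀ y : X, ∃ x : X, ∀ a b : ℤ, a • x = b • y → a = 0)
    (Rig : ∀ ψ : X → M, (∀ x y, ψ (x + y) = ψ x + ψ y) → (∀ x y, T y (ψ x) = ψ x) →
      (∀ U : AddMonoid.End M, (∀ x, Commute U (T x)) → (∀ y, U (p y) = p y) →
        ∀ x, U (ψ x) = ψ x) → ∃ n : ℕ, ∃ m : ℤ, n ≠ 0 ∧ ∀ x, n • ψ x = p (m • x)) :
    ∀ x y, T x (p y) = p y := by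
  by_contra hcon
  push Not at hcon
  obtain ⟨x1, y1, hxy1⟩ := hcon
  have hTc : ∀ x y, Commute (T x) (T y) := by
    intro x y
    show T x * T y = T y * T x
    rw [← hT, ← hT, add_comm]
  obtain ⟨θ, h1, ⟨x0, y0, h2⟩, h3⟩ := exists_theta T hT p nil
    ⟨x1, y1, fun h => hxy1 (by rw [E_sub, E_one] at h; exact sub_eq_zero.1 h)⟩ F
  have hθT : ∀ x, Commute (T x) θ := fun x => h1 _ (fun y => hTc x y)
  have hθT' : ∀ x w, T x (θ w) = θ (T x w) := by
    intro x w
    have := congrArg (fun E : AddMonoid.End M => E w) (hθT x).eq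
    simpa using this
  have p0 : p 0 = 0 := by
    have := hp 0 0
    rw [add_zero, hT0, E_one] at this
    have h4 : p 0 + 0 = p 0 + p 0 := by rw [add_zero]; exact this
    exact (add_left_cancel h4).symm
  set ψ : X → X → M := fun y x => θ ((T x - 1) (p y)) with hψ
  have hsymm : ∀ x y, ψ y x = ψ x y := by
    intro x y
    have e : (T x - 1) (p y) = (T y - 1) (p x) := by
      have e1 := hp x y
      have e2 := hp y x
      rw [add_comm y x] at e2
      rw [e2] at e1
      rw [E_sub, E_sub, E_one, E_one]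
      rw [sub_eq_sub_iff_add_eq_add, add_comm (T x (p y)), ← e1, add_comm]
    simp only [hψ]; rw [e]
  have hfixF : ∀ f ∈ F, ∀ x y, T f (ψ y x) = ψ y x := by
    intro f hf x y
    have := h3 f hf x y
    simp only [hψ]
    rw [hθT', ← sub_eq_zero, ← map_sub]
    exact this
  have hfix : ∀ z x y, T z (ψ y x) = ψ y x := by
    intro z x y
    obtain ⟨n, hn, hz⟩ := hF z
    have e1 := fix_closure T hT0 hT F (ψ y x) (fun f hf => hfixF f hf x y) _ hz
    rw [T_nsmul T hT0 hT] at e1
    obtain ⟨k, hk⟩ := nil z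
    refine fix_pow tf (T z) n hn k _ e1 ?_
    rw [hk]; rfl
  have hadd : ∀ y x x', ψ y (x + x') = ψ y x + ψ y x' := by
    intro y x x'
    have e1 : (T (x + x') - 1) (p y) = (T x - 1) (p y) + T x ((T x' - 1) (p y)) := by
      rw [hT, E_sub, E_mul, E_sub, E_sub, map_sub, E_one]; abel
    have e2 : ψ y (x + x') = ψ y x + T x (ψ y x') := by
      simp only [hψ]
      rw [e1, map_add, hθT']
    rw [e2, hfix]
  have hU : ∀ y, ∀ U : AddMonoid.End M, (∀ x, Commute U (T x)) → (∀ y, U (p y) = p y) →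
        ∀ x, U (ψ y x) = ψ y x := by
    intro y U hU1 hU2 x
    have hc : Commute U (θ * (T x - 1)) :=
      (h1 U hU1).mul_right ((hU1 x).sub_right (Commute.one_right U))
    have e := congrArg (fun E : AddMonoid.End M => E (p y)) hc.eq
    have e' : U (θ ((T x - 1) (p y))) = θ ((T x - 1) (U (p y))) := e
    simp only [hψ]
    rw [e', hU2]
  have hR : ∀ y, ∃ n : ℕ, ∃ m : ℤ, n ≠ 0 ∧ ∀ x, n • ψ y x = p (m • x) := fun y =>
    Rig (ψ y) (hadd y) (fun x z => hfix z x y) (hU y)
  have hpmul : ∀ w, (∀ z, T z (p w) = p w) → ∀ j : ℕ, p (j • w) = j • p w := by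
    intro w hw j
    induction j with
    | zero => simp [p0]
    | succ j ih => rw [succ_nsmul, succ_nsmul, hp, ih, T_nsmul T hT0 hT, ]
                   congr 1
                   rw [← T_nsmul T hT0 hT]; exact hw _
  obtain ⟨n0, m0, hn0, hm0⟩ := hR y0
  have hm0' : m0 ≠ 0 := by
    intro h
    have := hm0 x0
    rw [h, zero_smul, p0] at this
    exact h2 (tf n0 _ hn0 this)
  obtain ⟨x, hx⟩ := rk y0
  obtain ⟨n1, m1, hn1, hm1⟩ := hR x
  have e1 := hm0 x
  have e2 := hm1 y0
  rw [← hsymm x y0] at e2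
  have hfx1 : ∀ z, T z (p (m0 • x)) = p (m0 • x) := by
    intro z; rw [← e1, map_nsmul, hfix]
  have hfx2 : ∀ z, T z (p (m1 • y0)) = p (m1 • y0) := by
    intro z; rw [← e2, map_nsmul, hfix]
  have e3 : p (n0 • (m1 • y0)) = p (n1 • (m0 • x)) := by
    rw [hpmul _ hfx2, hpmul _ hfx1, ← e1, ← e2, smul_comm]
  have e4 := inj e3
  have e5 : ((n1 : ℤ) * m0) • x = ((n0 : ℤ) * m1) • y0 := by
    rw [mul_smul, mul_smul, natCast_zsmul, natCast_zsmul]; exact e4.symm
  have e6 := hx _ _ e5
  rcases mul_eq_zero.1 e6 with h | h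
  · exact hn1 (by exact_mod_cast h)
  · exact hm0' h

end

end Pool.Agent.H8NB
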