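import Pool.Agent.H8NB.LemmaA

set_option autoImplicit false

namespace Pool.Agent.H8NB

open Polynomial

universe u v

section
variable {G : Type u} [Group G] {M : Type v} [AddCommGroup M]

theorem E_add (f g : AddMonoid.End M) (m : M) : (f + g) m = f m + g m := rfl
theorem E_sub (f g : AddMonoid.End M) (m : M) : (f - g) m = f m - g m := rfl
theorem E_mul (f g : AddMonoid.End M) (m : M) : (f * g) m = f (g m) := rfl
theorem E_one (m : M) : (1 : AddMonoid.End M) m = m := rfl
theorem E_zero (m : M) : (0 : AddMonoid.End M) m = 0 := rfl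

/-- annihilator ideal of `v` under `ℤ[X]` acting through `s` -/
noncomputable def annI (s : AddMonoid.End M) (v : M) : Ideal ℤ[X] where
  carrier := {f | (aeval s f : AddMonoid.End M) v = 0}
  add_mem' := by
    intro f g hf hg
    simp only [Set.mem_ofPred_eq, map_add, E_add] at *
    rw [hf, hg, add_zero]
  zero_mem' := by simp
  smul_mem' := by
    intro c f hf
    simp only [Set.mem_ofPred_eq, smul_eq_mul, map_mul, E_mul] at *
    rw [hf, map_zero]

theorem mem_annI (s : AddMonoid.End M) (v : M) (f : ℤ[X]) :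
    f ∈ annI s v ↔ (aeval s f : AddMonoid.End M) v = 0 := Iff.rfl

/-- any `r` pairwise commuting elements are multiplicatively dependent -/
def Dep (G : Type u) [Group G] (r : ℕ) : Prop :=
  ∀ g : Fin r → G, (∀ i j, Commute (g i) (g j)) → ∃ a b : Fin r → ℕ,
    (∀ i, a i = 0 ∨ b i = 0) ∧ (∃ k, a k ≠ 0 ∨ b k ≠ 0) ∧
    (List.ofFn fun i => g i ^ a i).prod = (List.ofFn fun i => g i ^ b i).prod

/-- `g` acts on the cyclic module `ℤ[s] v` as the polynomial `p` -/
def Rel (T : G →* AddMonoid.End M) (s : AddMonoid.End M) (v : M) (g : G) (p : ℤ[X]) : Prop :=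
  ∀ w : ℤ[X], T g ((aeval s w : AddMonoid.End M) v) = (aeval s (p * w) : AddMonoid.End M) v

theorem Rel.one (T : G →* AddMonoid.End M) (s : AddMonoid.End M) (v : M) : Rel T s v 1 1 := by
  intro w; simp

theorem Rel.mul {T : G →* AddMonoid.End M} {s : AddMonoid.End M} {v : M} {g h : G} {p q : ℤ[X]}
    (hg : Rel T s v g p) (hh : Rel T s v h q) : Rel T s v (g * h) (p * q) := by
  intro w
  rw [map_mul, E_mul, hh w, hg (q * w), mul_assoc]

theorem Rel.pow {T : G →* AddMonoid.End M} {s : AddMonoid.End M} {v : M} {g : G} {p : ℤ[X]}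
    (hg : Rel T s v g p) (n : ℕ) : Rel T s v (g ^ n) (p ^ n) := by
  induction n with
  | zero => simpa using Rel.one T s v
  | succ n ih => rw [pow_succ, pow_succ]; exact ih.mul hg

theorem Rel.prod {T : G →* AddMonoid.End M} {s : AddMonoid.End M} {v : M} {r : ℕ}
    {g : Fin r → G} {p : Fin r → ℤ[X]} (h : ∀ i, Rel T s v (g i) (p i)) :
    Rel T s v (List.ofFn g).prod (∏ i, p i) := by
  induction r with
  | zero => simpa using Rel.one T s v
  | succ r ih =>
    rw [List.ofFn_succ, List.prod_cons, Fin.prod_univ_succ]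
    exact (h 0).mul (ih (fun i => h i.succ))

/-- The nilpotency lemma: if `z` commutes with elements mapping onto a `T z`-stable additive
subgroup containing `π z`, then `T z - 1` is nilpotent on `π z`. -/
theorem nil_aux (T : G →* AddMonoid.End M) (π : G → M)
    (hπ : ∀ g h, π (g * h) = π g + T g (π h)) (inj : Function.Injective π) (r : ℕ)
    (dep : Dep G r) (z : G) (Q : AddSubgroup M) (hz : π z ∈ Q) (hQ : ∀ m ∈ Q, T z m ∈ Q)
    (hQ' : ∀ m ∈ Q, ∃ h, π h = m ∧ Commute z h) :
    ∃ k : ℕ, ((T z - 1) ^ k) (π z) = 0 := by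
  set s : AddMonoid.End M := T z - 1 with hs
  set v : M := π z with hv
  have hsapp : ∀ m, s m = T z m - m := by
    intro m; rw [hs]; rfl
  have hsQ : ∀ m ∈ Q, s m ∈ Q := by
    intro m hm; rw [hsapp]; exact Q.sub_mem (hQ m hm) hm
  have hpowQ : ∀ n : ℕ, (s ^ n) v ∈ Q := by
    intro n
    induction n with
    | zero => simpa using hz
    | succ n ih => rw [pow_succ']; exact hsQ _ ih
  have hfQ : ∀ f : ℤ[X], (aeval s f : AddMonoid.End M) v ∈ Q := by
    intro f
    induction f using Polynomial.induction_on' with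
    | add p q hp hq => rw [map_add]; exact Q.add_mem hp hq
    | monomial n a =>
      rw [aeval_monomial]
      have : ((algebraMap ℤ (AddMonoid.End M)) a * s ^ n) v = a • (s ^ n) v := by
        rw [eq_intCast, E_mul, AddMonoid.End.intCast_apply]
      rw [this]
      exact Q.zsmul_mem (hpowQ n) a
  -- the elements h_f
  choose h hh1 hh2 using fun f : ℤ[X] => hQ' _ (hfQ f)
  have hrel : ∀ f, Rel T s v (h f) (1 + X * f) := by
    intro f w
    have hc1 : Commute (T (h f)) (T z) := by
      have := (hh2 f).symm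
      exact this.map T
    have hc2 : Commute (T (h f)) s := hc1.sub_right (Commute.one_right _)
    have hc3 : ∀ w : ℤ[X], Commute (T (h f)) (aeval s w : AddMonoid.End M) := by
      intro w
      induction w using Polynomial.induction_on' with
      | add p q hp hq => rw [map_add]; exact hp.add_right hq
      | monomial n a =>
        rw [aeval_monomial, eq_intCast]
        exact (Int.commute_cast _ _).mul_right (hc2.pow_right n)
    have hTv : T (h f) v = (aeval s (1 + X * f) : AddMonoid.End M) v := by
      have e1 : π (h f * z) = π (z * h f) := by rw [(hh2 f).eq]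
      rw [hπ, hπ, hh1 f] at e1
      rw [map_add, map_one, map_mul, aeval_X]
      rw [E_add, E_mul, hsapp]
      have e2 : T (h f) v = v + T z ((aeval s f : AddMonoid.End M) v)
        - (aeval s f : AddMonoid.End M) v := by
        rw [← e1]; abel
      rw [e2]
      change _ = v + _
      abel
    have e3 : T (h f) ((aeval s w : AddMonoid.End M) v)
        = (aeval s w : AddMonoid.End M) (T (h f) v) := by
      have := congrArg (fun F : AddMonoid.End M => F v) (hc3 w).eq
      simpa using this
    rw [e3, hTv, mul_comm (1 + X * f) w, map_mul]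
    rfl
  have hTinj : ∀ g : G, ∀ m, T g m = 0 → m = 0 := by
    intro g m hm
    have : T g⁻¹ (T g m) = m := by
      rw [← E_mul, ← map_mul, inv_mul_cancel, map_one]; rfl
    rw [← this, hm, map_zero]
  have hcomm : ∀ f g, Commute (h f) (h g) := by
    intro f g
    apply inj
    rw [hπ, hπ, hh1 f, hh1 g, hrel f g, hrel g f]
    rw [← E_add, ← E_add, ← map_add, ← map_add]
    congr 2
    ring
  have : IsJacobsonRing ℤ := jac_int
  have : IsJacobsonRing (ℤ[X] ⧸ annI s v) := isJacobsonRing_quotient
  have hnil : IsNilpotent (Ideal.Quotient.mk (annI s v) X) := by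
    apply ringA (ℤ[X] ⧸ annI s v) _ _ r
    · intro f
      obtain ⟨f', hf'⟩ : ∃ f' : Fin r → ℤ[X], ∀ i, Ideal.Quotient.mk (annI s v) (f' i) = f i := by
        choose f' hf' using fun i => Ideal.Quotient.mk_surjective (f i)
        exact ⟨f', hf'⟩
      obtain ⟨a, b, hab, hk, hr⟩ := dep (fun i => h (f' i)) (fun i j => hcomm _ _)
      refine ⟨a, b, hab, hk, ?_⟩
      have h1 := Rel.prod (fun i => (hrel (f' i)).pow (a i))
      have h2 := Rel.prod (fun i => (hrel (f' i)).pow (b i))
      have h3 := h1 1
      have h4 := h2 1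
      rw [hr, h4, mul_one, mul_one] at h3
      have h5 : (∏ i, (1 + X * f' i) ^ a i) - (∏ i, (1 + X * f' i) ^ b i) ∈ annI s v := by
        rw [mem_annI, map_sub, E_sub, h3, sub_self]
      have h6 := Ideal.Quotient.eq.2 h5
      simpa [map_prod, map_pow, map_add, map_mul, hf'] using h6
    · intro f w hfw
      obtain ⟨f, rfl⟩ := Ideal.Quotient.mk_surjective f
      obtain ⟨w, rfl⟩ := Ideal.Quotient.mk_surjective w
      have h1 : (1 + X * f) * w ∈ annI s v := by
        rw [← Ideal.Quotient.eq_zero_iff_mem]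
        simpa using hfw
      rw [mem_annI, ← hrel f w] at h1
      rw [Ideal.Quotient.eq_zero_iff_mem, mem_annI]
      exact hTinj _ _ h1
  obtain ⟨k, hk⟩ := hnil
  refine ⟨k, ?_⟩
  rw [← map_pow, Ideal.Quotient.eq_zero_iff_mem, mem_annI, map_pow, aeval_X] at hk
  exact hk

end

end Pool.Agent.H8NB
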