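import Mathlib

set_option autoImplicit false

namespace Pool.Agent.H8NB

open Polynomial

theorem no_root (b : ℚ) : b ^ 7 ≠ 3 := by
  intro h
  have h3 : Fact (Nat.Prime 3) := ⟨Nat.prime_three⟩
  have hb : b ≠ 0 := by
    intro h0; rw [h0] at h; norm_num at h
  have h1 := congrArg (padicValRat 3) h
  rw [padicValRat.pow] at h1
  have h2 : padicValRat 3 (3 : ℚ) = 1 := by
    have := padicValRat.self (p := 3) (by norm_num)
    exact_mod_cast this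
  rw [h2] at h1
  push_cast at h1
  omega

theorem exists_xi : ∃ ξ : ℚ_[2], ‖ξ‖ ≤ 1 ∧ ξ ^ 7 = 3 := by
  let F : Polynomial ℤ_[2] := X ^ 7 - C 3
  have h1 : F.aeval (1 : ℤ_[2]) = -2 := by
    simp only [F, map_sub, map_pow, aeval_X, aeval_C]
    norm_num
  have h2 : F.derivative.aeval (1 : ℤ_[2]) = 7 := by
    simp only [F]
    simp
    norm_num
  have h3 : ‖(F.aeval (1 : ℤ_[2]))‖ < ‖(F.derivative.aeval (1 : ℤ_[2]))‖ ^ 2 := by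
    rw [h1, h2]
    have e1 : ‖(-2 : ℤ_[2])‖ = 1 / 2 := by
      rw [norm_neg]
      have := PadicInt.norm_p (p := 2)
      norm_num at this ⊢
      exact this
    have e2 : ‖(7 : ℤ_[2])‖ = 1 := by
      have : ((7 : ℕ) : ℤ_[2]) = 7 := by norm_num
      rw [← this, PadicInt.norm_natCast_eq_one_iff]
      decide
    rw [e1, e2]; norm_num
  obtain ⟨z, hz, _⟩ := hensels_lemma h3
  refine ⟨(z : ℚ_[2]), z.2, ?_⟩
  have : z ^ 7 = 3 := by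
    have : z ^ 7 - 3 = 0 := by
      simpa [F] using hz
    exact sub_eq_zero.1 this
  have h := congrArg (fun t : ℤ_[2] => (t : ℚ_[2])) this
  have h3' : ((3 : ℤ_[2]) : ℚ_[2]) = 3 := rfl
  simpa [h3'] using h

noncomputable def ξ : ℚ_[2] := exists_xi.choose

theorem ξ_norm : ‖ξ‖ ≤ 1 := exists_xi.choose_spec.1
theorem ξ_pow : ξ ^ 7 = 3 := exists_xi.choose_spec.2

/-- linear independence of powers of `ξ` -/
theorem indep (a0 a1 a2 a3 a4 a6 : ℚ)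
    (h : (a0 : ℚ_[2]) + a1 * ξ + a2 * ξ ^ 2 + a3 * ξ ^ 3 + a4 * ξ ^ 4 + a6 * ξ ^ 6 = 0) :
    a0 = 0 ∧ a1 = 0 ∧ a2 = 0 ∧ a3 = 0 ∧ a4 = 0 ∧ a6 = 0 := by
  let p : ℚ[X] := C a0 + C a1 * X + C a2 * X ^ 2 + C a3 * X ^ 3 + C a4 * X ^ 4 + C a6 * X ^ 6
  have hp : aeval ξ p = 0 := by
    simp only [p, map_add, map_mul, aeval_C, aeval_X, map_pow]
    simpa using h
  have hirr : Irreducible (X ^ 7 - C (3 : ℚ)) :=
    X_pow_sub_C_irreducible_of_prime (by norm_num) no_root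
  have hmonic : (X ^ 7 - C (3 : ℚ)).Monic := monic_X_pow_sub_C _ (by norm_num)
  have hroot : aeval ξ (X ^ 7 - C (3 : ℚ)) = 0 := by
    simp [ξ_pow]
  have hmin := minpoly.eq_of_irreducible_of_monic hirr hroot hmonic
  have hdvd : (X ^ 7 - C (3 : ℚ)) ∣ p := by
    rw [hmin]; exact minpoly.dvd _ _ hp
  have hdeg : p.degree < (X ^ 7 - C (3 : ℚ)).degree := by
    rw [degree_X_pow_sub_C (by norm_num)]
    have : p.degree ≤ 6 := by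
      simp only [p]
      compute_degree
    exact lt_of_le_of_lt this (by norm_num)
  have hp0 : p = 0 := eq_zero_of_dvd_of_degree_lt hdvd hdeg
  have hc : ∀ n, p.coeff n = 0 := by intro n; rw [hp0, coeff_zero]
  have c0 := hc 0
  have c1 := hc 1
  have c2 := hc 2
  have c3 := hc 3
  have c4 := hc 4
  have c6 := hc 6
  simp only [p, coeff_add, coeff_C_mul, coeff_X_pow, coeff_C, coeff_X] at c0 c1 c2 c3 c4 c6
  norm_num at c0 c1 c2 c3 c4 c6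
  exact ⟨c0, c1, c2, c3, c4, c6⟩

/-- approximation of 2-adic integers by integers -/
theorem approx (z : ℚ_[2]) (hz : ‖z‖ ≤ 1) (n : ℕ) :
    ∃ m : ℤ, ∃ w : ℚ_[2], ‖w‖ ≤ 1 ∧ z = m + 2 ^ n * w := by
  have h := PadicInt.appr_spec n (⟨z, hz⟩ : ℤ_[2])
  rw [Ideal.mem_span_singleton] at h
  obtain ⟨w, hw⟩ := h
  refine ⟨(PadicInt.appr (⟨z, hz⟩ : ℤ_[2]) n : ℕ), (w : ℚ_[2]), w.2, ?_⟩
  have := congrArg (fun t : ℤ_[2] => (t : ℚ_[2])) hw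
  push_cast at this
  rw [sub_eq_iff_eq_add] at this
  push_cast
  rw [add_comm]
  exact this

theorem norm_two_pow (n : ℕ) : ‖(2 : ℚ_[2]) ^ n‖ = (1 / 2 : ℝ) ^ n := by
  rw [norm_pow]
  congr 1
  have := Padic.norm_p (p := 2)
  norm_num at this ⊢
  exact this

theorem eq_zero_of_forall (z : ℚ_[2]) (h : ∀ n : ℕ, ∃ w : ℚ_[2], ‖w‖ ≤ 1 ∧ z = 2 ^ n * w) :
    z = 0 := by
  have h1 : ∀ n : ℕ, ‖z‖ ≤ (1 / 2 : ℝ) ^ n := by
    intro n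
    obtain ⟨w, hw, rfl⟩ := h n
    rw [norm_mul, norm_two_pow]
    calc (1 / 2 : ℝ) ^ n * ‖w‖ ≤ (1 / 2 : ℝ) ^ n * 1 := by gcongr
      _ = _ := mul_one _
  have h2 : Filter.Tendsto (fun n : ℕ => (1 / 2 : ℝ) ^ n) Filter.atTop (nhds 0) :=
    tendsto_pow_atTop_nhds_zero_of_lt_one (by norm_num) (by norm_num)
  have h3 : ‖z‖ ≤ 0 := ge_of_tendsto' h2 h1
  exact norm_le_zero_iff.1 h3

theorem nadd {a b : ℚ_[2]} (ha : ‖a‖ ≤ 1) (hb : ‖b‖ ≤ 1) : ‖a + b‖ ≤ 1 :=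
  (Padic.nonarchimedean a b).trans (max_le ha hb)

theorem nneg {a : ℚ_[2]} (ha : ‖a‖ ≤ 1) : ‖-a‖ ≤ 1 := by rwa [norm_neg]

theorem nsub {a b : ℚ_[2]} (ha : ‖a‖ ≤ 1) (hb : ‖b‖ ≤ 1) : ‖a - b‖ ≤ 1 := by
  rw [sub_eq_add_neg]; exact nadd ha (nneg hb)

theorem nmul {a b : ℚ_[2]} (ha : ‖a‖ ≤ 1) (hb : ‖b‖ ≤ 1) : ‖a * b‖ ≤ 1 := by
  rw [norm_mul]; exact mul_le_one₀ ha (norm_nonneg _) hb

theorem npow {a : ℚ_[2]} (ha : ‖a‖ ≤ 1) (n : ℕ) : ‖a ^ n‖ ≤ 1 := by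
  rw [norm_pow]; exact pow_le_one₀ (norm_nonneg _) ha

theorem nhalf : ¬ ‖((1 / 2 : ℚ) : ℚ_[2])‖ ≤ 1 := by
  intro h
  have h1 : ‖(2 : ℚ_[2]) ^ 1‖ = (1 / 2 : ℝ) ^ 1 := norm_two_pow 1
  have h2 : (2 : ℚ_[2]) ^ 1 * ((1 / 2 : ℚ) : ℚ_[2]) = 1 := by push_cast; norm_num
  have h3 := congrArg norm h2
  rw [norm_mul, h1, norm_one] at h3
  norm_num at h3 h
  linarith

end Pool.Agent.H8NB
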